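import Pool.Agent.T6.H12.TowerDefs

/-!
# Towers of Frobenius arrangements and pull-backs of tame maps: definitions
-/

set_option autoImplicit false

universe u

open Polynomial

namespace Pool.Agent.T6.H12.X

variable {k K : Type u} [Field k] [Field K] [Algebra k K]

/-- The finite set `B` is a Frobenius arrangement over the field `F` with the group `G` and the
subset `B0`: the elements of `B0` are products of an element of `G` and of the `p`-th power of an
element of the group generated by `G` and `B`; if a linear combination `∑ b ∈ C, c b * b` over `F` of
elements of `B` which are not in `B0` belongs to the span of `B0` (the `c b` are not zero and every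
proper subset of `C` is linearly independent modulo the span of `B0`) then the ratios of the
coefficients belong to `G` and the linear combination is zero or the product of one of the
coefficients, of an element of `G` and of an element of `B0`; and the transcendence degree over `F`
of the field generated by `B` is the difference of the dimensions of the spans of `B` and `B0`. -/
structure IsFrobeniusArrangement (p : ℕ) (F : IntermediateField k K) (G : Subgroup Kˣ)
    (B B0 : Finset K) : Prop where
  subset : B0 ⊆ B
  nonzero : (0 : K) ∉ B
  powers : ∀ b ∈ B0, ∃ g ∈ G, ∃ v ∈ G ⊔ Subgroup.closure {u : Kˣ | (u : K) ∈ B},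
    b = (g : K) * (v : K) ^ p
  unimodular : ∀ (C : Finset K) (c : K → K), C ⊆ B → Disjoint C B0 →
    (∀ b ∈ C, c b ∈ F ∧ c b ≠ 0) → ∑ b ∈ C, c b * b ∈ Submodule.span F (B0 : Set K) →
    (∀ C' ⊂ C, LinearIndependent F fun b : C' => (Submodule.span F (B0 : Set K)).mkQ (b : K)) →
    ∀ a ∈ C, (∀ b ∈ C, ∃ u ∈ G, c b = u * c a) ∧
      (∑ b ∈ C, c b * b = 0 ∨ ∃ b0 ∈ B0, ∃ u ∈ G, ∑ b ∈ C, c b * b = u * c a * b0)
  complete : Algebra.trdeg F (IntermediateField.adjoin F (B : Set K)) +
    (Module.finrank F (Submodule.span F (B0 : Set K)) : Cardinal.{u}) =
      (Module.finrank F (Submodule.span F (B : Set K)) : Cardinal.{u})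

/-- The rational function `P / Q` over the algebraically closed field `k` is a tame map to the
projective line which maps infinity to infinity, whose critical values are in `B` or infinity. -/
structure IsTameMap {k : Type u} [Field k] (p : ℕ) (P Q : k[X]) (B : Set k) : Prop where
  coprime : IsCoprime P Q
  nonempty : B.Nonempty
  degree : Q.natDegree < P.natDegree ∧ ¬ p ∣ P.natDegree - Q.natDegree
  poles : ∀ a, Q.IsRoot a → ¬ p ∣ Q.rootMultiplicity a
  fibres : ∀ c ∈ B, ∀ a, (P - C c * Q).IsRoot a → ¬ p ∣ (P - C c * Q).rootMultiplicity a
  critical : ∀ a, (derivative P * Q - P * derivative Q).IsRoot a →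
    Q.IsRoot a ∨ ∃ c ∈ B, (P - C c * Q).IsRoot a

/-- The fields `F` and groups `G` of functions obtained from the field generated by the subfields
`E i` and the group generated by their nonzero elements and by the nonzero constants by finitely many
steps of four kinds: (1) adjoin an element `x` transcendental over `F` to the field, and all
values `P (x) ≠ 0` of polynomials `P` of degree less than `p` over one of the fields `E i` to the
group; (2) adjoin all differences `a - b` of elements of the group, such that `a ^ N - b ^ N` belongs
to the group for some `N` prime to `p`, to the group; (3) adjoin the elements of a Frobenius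
arrangement; (4) adjoin an element `y` such that `P (y) = f * Q (y)`, where `P / Q` is a tame map and
`f - c` belongs to the group for all `c` in a set `B` which contains the finite critical values, to
the field, and the elements `y - a`, for all poles `a ∈ k` of `P / Q` and all `a ∈ k` at which the
value of `P / Q` is in `B`, to the group. -/
inductive IsFrobeniusTower (p : ℕ) {m : ℕ} (E : Fin m → IntermediateField k K) :
    IntermediateField k K → Subgroup Kˣ → Prop
  | base : IsFrobeniusTower p E (IntermediateField.adjoin k (⋃ i, (E i : Set K)))
      (Subgroup.closure {u | (∃ c : k, algebraMap k K c = u) ∨ ∃ i, (u : K) ∈ E i})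
  | line {F : IntermediateField k K} {G : Subgroup Kˣ} (h : IsFrobeniusTower p E F G)
      (i : Fin m) (x : K) (hx : Transcendental F x) :
      IsFrobeniusTower p E ((IntermediateField.adjoin F {x}).restrictScalars k)
        (G ⊔ Subgroup.closure {u | ∃ P : (E i)[X], P.natDegree < p ∧ aeval x P = u})
  | difference {F : IntermediateField k K} {G : Subgroup Kˣ} (h : IsFrobeniusTower p E F G) :
      IsFrobeniusTower p E F (G ⊔ Subgroup.closure (differences p G))
  | arrangement {F : IntermediateField k K} {G : Subgroup Kˣ} (h : IsFrobeniusTower p E F G)
      (B B0 : Finset K) (hB : IsFrobeniusArrangement p F G B B0) :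
      IsFrobeniusTower p E ((IntermediateField.adjoin F (B : Set K)).restrictScalars k)
        (G ⊔ Subgroup.closure {u | (u : K) ∈ B})
  | pullback {F : IntermediateField k K} {G : Subgroup Kˣ} (h : IsFrobeniusTower p E F G)
      (P Q : k[X]) (B : Set k) (hP : IsTameMap p P Q B) (f y : K)
      (hf : ∀ c ∈ B, ∃ u ∈ G, f - algebraMap k K c = u) (hy : aeval y P = f * aeval y Q) :
      IsFrobeniusTower p E ((IntermediateField.adjoin F {y}).restrictScalars k)
        (G ⊔ Subgroup.closure {u | ∃ a : k, (Q.IsRoot a ∨ ∃ c ∈ B, (P - C c * Q).IsRoot a) ∧
          (u : K) = y - algebraMap k K a})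

end Pool.Agent.T6.H12.X
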