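import Pool.Agent.T6.H12.Indep
import Pool.Agent.T6.H12.X.Ultra

/-!
# The criterion for the existence of resolutions, with constants
-/

set_option autoImplicit false

universe u

open Pool.Agent.TH214.SD Pool.Agent.TH188.VT Pool.Agent.W558 AlgebraicGeometry
  CategoryTheory

namespace Pool.Agent.T6.H12.X

variable {k K : Type u} [Field k] [Field K] [Algebra k K] {m n d : ℕ}
  {E : Fin m → IntermediateField k K}

/-- The products of constants and nonzero elements of the fields `E i`. -/
def PrK (E : Fin m → IntermediateField k K) : Set K :=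
  {a | ∃ c : k, c ≠ 0 ∧ ∃ b ∈ Prods E, a = algebraMap k K c * b}

lemma prk_ne {a : K} (ha : a ∈ PrK E) : a ≠ 0 := by
  obtain ⟨c, hc, b, hb, rfl⟩ := ha
  exact mul_ne_zero ((map_ne_zero _).2 hc) (prods_ne hb)

lemma prk_mul {a b : K} (ha : a ∈ PrK E) (hb : b ∈ PrK E) : a * b ∈ PrK E := by
  obtain ⟨c, hc, a', ha', rfl⟩ := ha
  obtain ⟨c', hc', b', hb', rfl⟩ := hb
  exact ⟨c * c', mul_ne_zero hc hc', a' * b', prods_mul ha' hb', by rw [map_mul]; ring⟩

lemma prk_inv {a : K} (ha : a ∈ PrK E) : a⁻¹ ∈ PrK E := by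
  obtain ⟨c, hc, a', ha', rfl⟩ := ha
  exact ⟨c⁻¹, inv_ne_zero hc, a'⁻¹, prods_inv ha', by rw [map_inv₀, mul_inv]⟩

lemma prk_prods {a : K} (ha : a ∈ Prods E) : a ∈ PrK E :=
  ⟨1, one_ne_zero, a, ha, by rw [map_one, one_mul]⟩

lemma prk_one : (1 : K) ∈ PrK E := prk_prods prods_one

lemma prk_alg {c : k} (hc : c ≠ 0) : algebraMap k K c ∈ PrK E :=
  ⟨c, hc, 1, prods_one, by rw [mul_one]⟩

lemma prk_smul {c : k} (hc : c ≠ 0) {a : K} (ha : a ∈ PrK E) : algebraMap k K c * a ∈ PrK E :=
  prk_mul (prk_alg hc) ha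

lemma prk_neg {a : K} (ha : a ∈ PrK E) : -a ∈ PrK E := by
  rw [← neg_one_mul, ← map_one (algebraMap k K), ← map_neg]
  exact prk_smul (neg_ne_zero.2 one_ne_zero) ha

lemma prk_mem (i : Fin m) {a : K} (ha : a ∈ E i) (h0 : a ≠ 0) : a ∈ PrK E :=
  prk_prods (prods_mem i ha h0)

/-- The valuative criterion for the existence of resolutions. -/
theorem resolvable_of_bound {p : ℕ} [Fact p.Prime] [PerfectField k] [CharP k p]
    (hE : AreIndependentSurfaceFields E) {y : Fin n → K} (hy0 : ∀ j, y j ≠ 0)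
    (hgen : IntermediateField.adjoin k (Set.range y ∪ ⋃ i, (E i : Set K)) = ⊤)
    (htr : Algebra.trdeg (IntermediateField.adjoin k (⋃ i, (E i : Set K))) K = (d : Cardinal.{u}))
    (H : ∀ (Γ κ : Type u) [AddCommGroup Γ] [LinearOrder Γ] [IsOrderedAddMonoid Γ] [Field κ]
      [IsAlgClosed κ] (σ : k →+* κ) (l : K → Γ) (z : K → κ) (w : Fin n → Γ) (ζ : Fin n → κ)
      (D : Fin n → Fin (d + 1) → κ), Triv (PrK E) l z σ → IniTop (PrK E) y l z w ζ D →
      Module.finrank κ (Submodule.span κ (Set.range D)) ≤ d)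
    (A : Type u) [CommRing A] [IsDomain A] [Algebra k A] [Algebra.FiniteType k A] [Algebra A K]
    [IsScalarTower k A K] [IsFractionRing A K] (S : Finset A)
    (hS : ∀ a ∈ S, ∃ c : k, c ≠ 0 ∧ IsProduct E y (algebraMap k K c * algebraMap A K a))
    (hA : ∀ a : A, IsIntegral (Algebra.adjoin k (S : Set A)) a) :
    IsResolvableVariety (X := Spec (CommRingCat.of A))
      (Spec.map (CommRingCat.ofHom (algebraMap k A))) := by
  classical
  let F := IntermediateField.adjoin k (⋃ i, (E i : Set K))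
  have hgenF : IntermediateField.adjoin F (Set.range y) = ⊤ := by
    rw [eq_top_iff]
    intro b _
    have h1 : IntermediateField.adjoin k (Set.range y ∪ ⋃ i, (E i : Set K)) ≤
        (IntermediateField.adjoin F (Set.range y)).restrictScalars k := by
      rw [IntermediateField.adjoin_le_iff]
      rintro c (hc | hc)
      · exact IntermediateField.subset_adjoin F _ hc
      · have h2 : c ∈ F := IntermediateField.subset_adjoin k _ hc
        exact (IntermediateField.adjoin F (Set.range y)).algebraMap_mem ⟨c, h2⟩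
    rw [hgen] at h1
    exact h1 (show b ∈ (⊤ : IntermediateField k K) from trivial)
  obtain ⟨hdn, ρ, hρ⟩ := exists_rho (d := d) y hgenF htr
  obtain ⟨h, u, q, G, hu, hG1, hG2⟩ := exists_schon (k := k) (c := n - d) (d := d) (by omega)
    (PrK E) (Prods E) (fun a ha => prods_ne ha) (fun a ha b hb => prk_mul ha hb)
    (fun c hc a ha => prk_smul hc ha) (fun a ha => ha) y H
  have hK : IsInseparableCover (r := 0) (s := 0) (o := 0) E p (n - d) u y G ρ
      (fun t => Fin.elim0 t) (fun t => Fin.elim0 t) (fun t => Fin.elim0 t) := by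
    refine ⟨⟨hE, ?_, hy0, hG1, hG2, by omega, hρ⟩, ?_, ?_, ?_, ?_⟩
    · intro a
      refine ⟨prods_ne (hu a), ?_⟩
      obtain ⟨v, -, hv⟩ := hu a
      exact ⟨v, hv⟩
    · intro l z hz hv t
      exact Fin.elim0 t
    · intro i t
      exact Fin.elim0 t
    · intro j
      exact Fin.elim0 j
    · rw [← hgen]
      congr 1
      rw [Set.range_eq_empty, Set.empty_union]
  choose! c hc hcS using hS
  let S' : Finset A := S.image fun a => algebraMap k A (c a) * a
  have hS' : Algebra.adjoin k (S' : Set A) = Algebra.adjoin k (S : Set A) := by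
    apply le_antisymm
    · rw [Algebra.adjoin_le_iff]
      intro b hb
      obtain ⟨a, ha, rfl⟩ := Finset.mem_image.1 (Finset.mem_coe.1 hb)
      exact mul_mem (Subalgebra.algebraMap_mem _ _) (Algebra.subset_adjoin (Finset.mem_coe.2 ha))
    · rw [Algebra.adjoin_le_iff]
      intro a ha
      have h1 : algebraMap k A (c a) * a ∈ Algebra.adjoin k (S' : Set A) :=
        Algebra.subset_adjoin (Finset.mem_coe.2 (Finset.mem_image_of_mem _ (Finset.mem_coe.1 ha)))
      have h2 : a = algebraMap k A (c a)⁻¹ * (algebraMap k A (c a) * a) := by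
        rw [← mul_assoc, ← map_mul, inv_mul_cancel₀ (hc a (Finset.mem_coe.1 ha)), map_one,
          one_mul]
      rw [h2]
      exact mul_mem (Subalgebra.algebraMap_mem _ _) h1
  refine resolvable (fun S _ v hv => insep_models hK S v hv) A S' ?_ ?_
  · intro b hb
    obtain ⟨a, ha, rfl⟩ := Finset.mem_image.1 hb
    rw [map_mul, ← IsScalarTower.algebraMap_apply]
    exact hcS a ha
  · rw [hS']
    exact hA

end Pool.Agent.T6.H12.X
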