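import Pool.Agent.T6.H12.Good
import Pool.Agent.T6.H12.X.Assem

/-!
# Groups of functions with bounded derivatives, with constants
-/

set_option autoImplicit false
set_option linter.unusedSectionVars false

universe u

open Polynomial Pool.Agent.TH214.SD

namespace Pool.Agent.T6.H12.X

section good

variable {k K : Type u} [Field k] [Field K] [Algebra k K] {m n : ℕ}

/-- The group of the monomials. -/
def monoGrp (E : Fin m → IntermediateField k K) (y : Fin n → K) (hy : ∀ j, y j ≠ 0) :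
    Subgroup Kˣ where
  carrier := {u | ∃ a ∈ PrK E, ∃ e : Fin n → ℤ, (u : K) = a * mon y e}
  mul_mem' := by
    rintro u v ⟨a, ha, e, hu⟩ ⟨b, hb, e', hv⟩
    refine ⟨a * b, prk_mul ha hb, e + e', ?_⟩
    rw [Units.val_mul, hu, hv, mon_add hy]
    ring
  one_mem' := ⟨1, prk_one, 0, by rw [mon_zero, mul_one, Units.val_one]⟩
  inv_mem' := by
    rintro u ⟨a, ha, e, hu⟩
    exact ⟨a⁻¹, prk_inv ha, -e, by rw [Units.val_inv_eq_inv_val, hu, mon_neg, mul_inv]⟩

lemma mem_monoGrp {E : Fin m → IntermediateField k K} {y : Fin n → K} {hy : ∀ j, y j ≠ 0}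
    {u : Kˣ} : u ∈ monoGrp E y hy ↔ ∃ a ∈ PrK E, ∃ e : Fin n → ℤ, (u : K) = a * mon y e :=
  Iff.rfl

lemma mem_monoGrp_of_range {E : Fin m → IntermediateField k K} {y : Fin n → K}
    {hy : ∀ j, y j ≠ 0} {u : Kˣ} (hu : (u : K) ∈ Set.range y) : u ∈ monoGrp E y hy := by
  classical
  obtain ⟨j, hj⟩ := hu
  exact ⟨1, prk_one, Pi.single j 1, by rw [mon_single, one_mul, hj]⟩

lemma monoGrp_mono {E : Fin m → IntermediateField k K} {n' : ℕ} {y : Fin n → K}
    {hy : ∀ j, y j ≠ 0} {y' : Fin n' → K} {hy' : ∀ j, y' j ≠ 0} (φ : Fin n → Fin n')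
    (hφ : Function.Injective φ) (h : y' ∘ φ = y) : monoGrp E y hy ≤ monoGrp E y' hy' := by
  rintro u ⟨a, ha, e, hu⟩
  refine ⟨a, ha, Function.extend φ e 0, ?_⟩
  rw [mon_ext hφ, h, hu]

/-- The bound for the logarithmic derivatives. -/
def Bounded (E : Fin m → IntermediateField k K) (y : Fin n → K) (d : ℕ) : Prop :=
  ∀ (Γ κ W : Type u) [AddCommGroup Γ] [LinearOrder Γ] [IsOrderedAddMonoid Γ] [Field κ]
    [IsAlgClosed κ] [AddCommGroup W] [Module κ W] (σ : k →+* κ) (l : K → Γ) (z : K → κ)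
    (w : Fin n → Γ) (ζ : Fin n → κ) (D : Fin n → W), Triv (PrK E) l z σ →
    IniTop (PrK E) y l z w ζ D →
    Module.finrank κ (Submodule.span κ (Set.range D)) ≤ d

/-- Every finite subset of the group is contained in the group of monomials of a finite family
with bounded derivatives. -/
def Good (E : Fin m → IntermediateField k K) (G : Subgroup Kˣ) (d : ℕ) : Prop :=
  ∀ T : Finset Kˣ, (∀ u ∈ T, u ∈ G) → ∃ (n : ℕ) (y : Fin n → K) (hy : ∀ j, y j ≠ 0),
    Function.Injective y ∧ (∀ u ∈ T, u ∈ monoGrp E y hy) ∧ Bounded E y d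

/-- The base. -/
lemma good_base (E : Fin m → IntermediateField k K) :
    Good E (Subgroup.closure {u : Kˣ | (∃ c : k, algebraMap k K c = u) ∨ ∃ i, (u : K) ∈ E i})
      0 := by
  intro T hT
  refine ⟨0, fun j => Fin.elim0 j, fun j => Fin.elim0 j, fun j => Fin.elim0 j, ?_, ?_⟩
  · intro u hu
    refine (Subgroup.closure_le _).2 ?_ (hT u hu)
    rintro v (⟨c, hc⟩ | ⟨i, hi⟩)
    · have hc0 : c ≠ 0 := by
        rintro rfl
        rw [map_zero] at hc
        exact v.ne_zero hc.symm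
      exact ⟨v, by rw [← hc]; exact prk_alg hc0, 0, by rw [mon_zero, mul_one]⟩
    · exact ⟨v, prk_mem i hi v.ne_zero, 0, by rw [mon_zero, mul_one]⟩
  · intro Γ κ W _ _ _ _ _ _ _ σ l z w ζ D _ _
    have h1 : Set.range D = ∅ := Set.range_eq_empty D
    rw [h1, Submodule.span_empty, finrank_bot]

end good

end Pool.Agent.T6.H12.X
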