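import Pool.Agent.T6.H12.Circ
import Pool.Agent.T6.H12.Diff
import Pool.Agent.T6.H12.X.Good
import Pool.Agent.T6.H12.X.Defs

/-!
# Adding a Frobenius arrangement
-/

set_option autoImplicit false
set_option linter.unusedSectionVars false

universe u

open Polynomial Pool.Agent.TH214.SD Pool.Agent.W558

namespace Pool.Agent.T6.H12.X

section rel

variable {K : Type u} [Field K] {n : ℕ} {Γ κ W : Type*} [AddCommGroup Γ] [LinearOrder Γ]
    [IsOrderedAddMonoid Γ] [Field κ] [AddCommGroup W] [Module κ W] {A : Set K} {y : Fin n → K}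
    {l : K → Γ} {z : K → κ} {w : Fin n → Γ} {ζ : Fin n → κ} {D : Fin n → W}

/-- In a relation with at most one term of a special kind the derivative of one of the other terms
can be expressed by those of the rest. -/
lemma exists_rel' (h : IniTop A y l z w ζ D) {J : Type} [Fintype J] [Nonempty J] (c : J → K)
    (hc : ∀ j, c j ∈ A) (e : J → Fin n → ℤ) (h0 : ∑ j, c j * mon y (e j) = 0) (J0 : Set J)
    (hJ0 : J0.Subsingleton) (W0 : Submodule κ W) (hW0 : ∀ j ∈ J0, dm D (e j) ∈ W0) :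
    ∃ i, i ∉ J0 ∧ dm D (e i) ∈ W0 ⊔
      Submodule.span κ ((fun j => dm D (e j)) '' {j | j ≠ i ∧ j ∉ J0}) := by
  classical
  obtain ⟨m, hm1, hm2, j1, hj1⟩ := h.exists_rel c hc e h0
  obtain ⟨i, hi, hmi⟩ : ∃ i, i ∉ J0 ∧ m i ≠ 0 := by
    by_contra hcon
    push Not at hcon
    have hj1' : j1 ∈ J0 := by
      by_contra h1
      exact hj1 (hcon j1 h1)
    rw [Finset.sum_eq_single j1] at hm1
    · exact hj1 hm1
    · intro j _ hj
      exact hcon j fun h2 => hj (hJ0 h2 hj1')
    · intro h2; exact absurd (Finset.mem_univ _) h2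
  refine ⟨i, hi, ?_⟩
  rw [← Finset.add_sum_erase _ _ (Finset.mem_univ i)] at hm2
  have h1 : dm D (e i) = -(m i)⁻¹ • ∑ j ∈ Finset.univ.erase i, m j • dm D (e j) := by
    rw [neg_smul, ← smul_neg, ← eq_neg_of_add_eq_zero_left hm2, inv_smul_smul₀ hmi]
  rw [h1]
  refine Submodule.smul_mem _ _ (Submodule.sum_mem _ fun j hj => Submodule.smul_mem _ _ ?_)
  by_cases hjJ : j ∈ J0
  · exact Submodule.mem_sup_left (hW0 j hjJ)
  · exact Submodule.mem_sup_right (Submodule.subset_span
      ⟨j, ⟨(Finset.mem_erase.1 hj).1, hjJ⟩, rfl⟩)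

end rel

section circ

variable {k K : Type u} [Field k] [Field K] [Algebra k K]

lemma frob_circuit {p : ℕ} {F : IntermediateField k K} {G : Subgroup Kˣ} {B B0 : Finset K}
    (hB : IsFrobeniusArrangement p F G B B0) (T : Finset K) (hT : T ⊆ B) (hT0 : Disjoint T B0)
    (hdep : ¬ LinearIndependent F fun b : T => (Submodule.span F (B0 : Set K)).mkQ (b : K)) :
    ∃ g : K → K, (∃ b ∈ T, g b ≠ 0) ∧ (∀ b ∈ T, g b ≠ 0 → ∃ u ∈ G, (u : K) = g b) ∧
      (∑ b ∈ T, g b * b = 0 ∨ ∃ b0 ∈ B0, ∃ u ∈ G, ∑ b ∈ T, g b * b = (u : K) * b0) := by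
  classical
  set S0 := Submodule.span F (B0 : Set K) with hS0
  obtain ⟨C, hC, hmin⟩ : ∃ C ⊆ T, (¬ LinearIndependent F fun b : C => S0.mkQ (b : K)) ∧
      ∀ C' ⊂ C, LinearIndependent F fun b : C' => S0.mkQ (b : K) := by
    obtain ⟨C, hC, hCmin⟩ := Finset.exists_minimal
      (s := T.powerset.filter fun C : Finset K =>
        ¬ LinearIndependent F fun b : C => S0.mkQ (b : K))
      ⟨T, Finset.mem_filter.2 ⟨Finset.mem_powerset_self T, hdep⟩⟩
    obtain ⟨h1, h2⟩ := Finset.mem_filter.1 hC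
    refine ⟨C, Finset.mem_powerset.1 h1, h2, fun C' hC' => ?_⟩
    by_contra h3
    have h4 := hCmin (Finset.mem_filter.2 ⟨Finset.mem_powerset.2
      (hC'.1.trans (Finset.mem_powerset.1 h1)), h3⟩) hC'.1
    exact hC'.2 h4
  obtain ⟨hCdep, hCmin⟩ := hmin
  rw [Fintype.not_linearIndependent_iff] at hCdep
  obtain ⟨g, hg, ⟨b0, hb0⟩, hgb0⟩ := hCdep
  let c : K → K := fun b => if h : b ∈ C then (g ⟨b, h⟩ : K) else 0
  have hcC : ∀ b : C, c b = g b := fun b => dif_pos b.2
  have hmk : ∀ (s : Finset K) (hs : s ⊆ C), S0.mkQ (∑ b ∈ s, c b * b) =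
      ∑ b : s, g ⟨b, hs b.2⟩ • S0.mkQ (b : K) := by
    intro s hs
    rw [map_sum, ← Finset.sum_coe_sort]
    refine Finset.sum_congr rfl fun b _ => ?_
    have h4 : c b = g ⟨b, hs b.2⟩ := dif_pos (hs b.2)
    rw [h4, ← map_smul]
    rfl
  have hsum : ∑ b ∈ C, c b * b ∈ S0 := by
    rw [← Submodule.Quotient.mk_eq_zero, ← Submodule.mkQ_apply, hmk C subset_rfl]
    exact hg
  have hne : ∀ b ∈ C, c b ≠ 0 := by
    intro b hb h0
    have h1 := hCmin (C.erase b) (Finset.erase_ssubset hb)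
    rw [Fintype.linearIndependent_iff] at h1
    have h2 : ∑ a : (C.erase b : Finset K), g ⟨a, Finset.mem_of_mem_erase a.2⟩ •
        S0.mkQ (a : K) = 0 := by
      rw [← hmk (C.erase b) (Finset.erase_subset _ _), Submodule.mkQ_apply,
        Submodule.Quotient.mk_eq_zero]
      rw [← Finset.add_sum_erase _ _ hb, h0, zero_mul, zero_add] at hsum
      exact hsum
    have h3 := h1 (fun a => g ⟨a, Finset.mem_of_mem_erase a.2⟩) h2
    by_cases hb0b : b0 = b
    · subst hb0b
      have h4 : c b0 = g ⟨b0, hb0⟩ := dif_pos hb0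
      rw [h4] at h0
      exact hgb0 (Subtype.ext h0)
    · exact hgb0 (h3 ⟨b0, Finset.mem_erase.2 ⟨hb0b, hb0⟩⟩)
  have hcF : ∀ b ∈ C, c b ∈ F ∧ c b ≠ 0 := fun b hb => ⟨by
    have h4 : c b = g ⟨b, hb⟩ := dif_pos hb
    rw [h4]
    exact (g ⟨b, hb⟩).2, hne b hb⟩
  obtain ⟨hrat, hrhs⟩ := hB.unimodular C c (hC.trans hT) (Finset.disjoint_of_subset_left hC hT0)
    hcF hsum hCmin b0 hb0
  have hsum2 : ∑ b ∈ T, (if b ∈ C then c b / c b0 else 0) * b = (c b0)⁻¹ * ∑ b ∈ C, c b * b := by
    have h1 : ∑ b ∈ T, (if b ∈ C then c b / c b0 else 0) * b = ∑ b ∈ C, c b / c b0 * b := by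
      rw [← Finset.sum_subset hC]
      · exact Finset.sum_congr rfl fun b hb => by rw [if_pos hb]
      · intro b _ hb
        rw [if_neg hb, zero_mul]
    rw [h1, Finset.mul_sum]
    refine Finset.sum_congr rfl fun b _ => ?_
    rw [div_eq_mul_inv]
    ring
  refine ⟨fun b => if b ∈ C then c b / c b0 else 0, ⟨b0, hC hb0, ?_⟩, ?_, ?_⟩
  · dsimp only
    rw [if_pos hb0]
    exact div_ne_zero (hne b0 hb0) (hne b0 hb0)
  · intro b _ hb
    dsimp only at hb ⊢
    by_cases hbC : b ∈ C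
    · rw [if_pos hbC]
      obtain ⟨u, hu, h1⟩ := hrat b hbC
      exact ⟨u, hu, by rw [h1, mul_div_cancel_right₀ _ (hne b0 hb0)]⟩
    · rw [if_neg hbC] at hb
      exact absurd rfl hb
  · dsimp only
    rw [hsum2]
    rcases hrhs with h1 | ⟨b1, hb1, u, hu, h1⟩
    · left
      rw [h1, mul_zero]
    · right
      refine ⟨b1, hb1, u, hu, ?_⟩
      rw [h1]
      have := hne b0 hb0
      field_simp

/-- Finitely many coefficients suffice. -/
lemma frob_circuits {p : ℕ} {F : IntermediateField k K} {G : Subgroup Kˣ} {B B0 : Finset K}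
    (hB : IsFrobeniusArrangement p F G B B0) :
    ∃ TG : Finset Kˣ, (∀ u ∈ TG, u ∈ G) ∧ ∀ T ⊆ B, Disjoint T B0 →
      (¬ LinearIndependent F fun b : T => (Submodule.span F (B0 : Set K)).mkQ (b : K)) →
      ∃ g : K → K, (∃ b ∈ T, g b ≠ 0) ∧ (∀ b ∈ T, g b ≠ 0 → ∃ u ∈ TG, (u : K) = g b) ∧
        (∑ b ∈ T, g b * b = 0 ∨ ∃ b0 ∈ B0, ∃ u ∈ TG, ∑ b ∈ T, g b * b = (u : K) * b0) := by
  classical
  have h : ∀ T : Finset K, ∃ (TG : Finset Kˣ), (∀ u ∈ TG, u ∈ G) ∧ (T ⊆ B → Disjoint T B0 →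
      (¬ LinearIndependent F fun b : T => (Submodule.span F (B0 : Set K)).mkQ (b : K)) →
      ∃ g : K → K, (∃ b ∈ T, g b ≠ 0) ∧ (∀ b ∈ T, g b ≠ 0 → ∃ u ∈ TG, (u : K) = g b) ∧
        (∑ b ∈ T, g b * b = 0 ∨ ∃ b0 ∈ B0, ∃ u ∈ TG, ∑ b ∈ T, g b * b = (u : K) * b0)) := by
    intro T
    by_cases hT : T ⊆ B ∧ Disjoint T B0 ∧
        ¬ LinearIndependent F fun b : T => (Submodule.span F (B0 : Set K)).mkQ (b : K)
    · obtain ⟨g, hg1, hg2, hg3⟩ := frob_circuit hB T hT.1 hT.2.1 hT.2.2
      have h1 : ∀ b : K, ∃ u : Kˣ, u ∈ G ∧ (b ∈ T → g b ≠ 0 → (u : K) = g b) := by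
        intro b
        by_cases hb : b ∈ T ∧ g b ≠ 0
        · obtain ⟨u, hu, h2⟩ := hg2 b hb.1 hb.2
          exact ⟨u, hu, fun _ _ => h2⟩
        · exact ⟨1, one_mem G, fun h3 h4 => absurd ⟨h3, h4⟩ hb⟩
      choose uu huu1 huu2 using h1
      have h2 : ∃ u : Kˣ, u ∈ G ∧
          (∑ b ∈ T, g b * b = 0 ∨ ∃ b0 ∈ B0, ∑ b ∈ T, g b * b = (u : K) * b0) := by
        rcases hg3 with h3 | ⟨b0, hb0, u, hu, h3⟩
        · exact ⟨1, one_mem G, Or.inl h3⟩
        · exact ⟨u, hu, Or.inr ⟨b0, hb0, h3⟩⟩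
      obtain ⟨u1, hu1, h3⟩ := h2
      refine ⟨insert u1 (T.image uu), ?_, fun _ _ _ => ⟨g, hg1, fun b hb hb' => ⟨uu b,
        Finset.mem_insert_of_mem (Finset.mem_image_of_mem uu hb), huu2 b hb hb'⟩, ?_⟩⟩
      · intro u hu
        rcases Finset.mem_insert.1 hu with rfl | hu
        · exact hu1
        · obtain ⟨b, -, rfl⟩ := Finset.mem_image.1 hu
          exact huu1 b
      · rcases h3 with h3 | ⟨b0, hb0, h3⟩
        · exact Or.inl h3
        · exact Or.inr ⟨b0, hb0, u1, Finset.mem_insert_self _ _, h3⟩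
    · exact ⟨∅, fun u hu => absurd hu (Finset.notMem_empty u),
        fun h1 h2 h3 => absurd ⟨h1, h2, h3⟩ hT⟩
  choose TG hTG1 hTG2 using h
  refine ⟨B.powerset.biUnion TG, ?_, ?_⟩
  · intro u hu
    obtain ⟨T, -, h1⟩ := Finset.mem_biUnion.1 hu
    exact hTG1 T u h1
  · intro T hT hT0 hdep
    obtain ⟨g, h1, h2, h3⟩ := hTG2 T hT hT0 hdep
    refine ⟨g, h1, fun b hb hb' => ?_, ?_⟩
    · obtain ⟨u, hu, h4⟩ := h2 b hb hb'
      exact ⟨u, Finset.mem_biUnion.2 ⟨T, Finset.mem_powerset.2 hT, hu⟩, h4⟩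
    · rcases h3 with h3 | ⟨b0, hb0, u, hu, h3⟩
      · exact Or.inl h3
      · exact Or.inr ⟨b0, hb0, u, Finset.mem_biUnion.2 ⟨T, Finset.mem_powerset.2 hT, hu⟩, h3⟩

end circ

section block

variable {k K : Type u} [Field k] [Field K] [Algebra k K] {m n : ℕ} {A : Set K}
  {Γ κ W : Type*} [AddCommGroup Γ] [LinearOrder Γ] [IsOrderedAddMonoid Γ] [Field κ]
  [AddCommGroup W] [Module κ W] {y : Fin n → K} {l : K → Γ} {z : K → κ} {w : Fin n → Γ}
  {ζ : Fin n → κ} {D : Fin n → W}

/-- The derivatives of the elements of a Frobenius arrangement. -/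
lemma frob_block (h : IniTop A y l z w ζ D) (hneg : ∀ a ∈ A, -a ∈ A) (hy : Function.Injective y)
    (hy0 : ∀ j, y j ≠ 0) (F : IntermediateField k K) (S0 : Submodule F K) (W0 : Submodule κ W)
    (Bf B0 : Finset K) (hBf : ∀ b ∈ Bf, b ∈ Set.range y)
    (hB0 : ∀ b ∈ B0, b ∈ Set.range y ∧ dm D (ex y b) ∈ W0)
    (H : ∀ T ⊆ Bf, (¬ LinearIndependent F fun b : T => S0.mkQ (b : K)) →
      ∃ g : K → K, (∃ b ∈ T, g b ≠ 0) ∧ (∀ b ∈ T, g b ≠ 0 →
        ∃ a ∈ A, ∃ e : Fin n → ℤ, g b = a * mon y e ∧ dm D e ∈ W0) ∧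
        (∑ b ∈ T, g b * b = 0 ∨ ∃ b0 ∈ B0, ∃ a ∈ A, ∃ e : Fin n → ℤ,
          ∑ b ∈ T, g b * b = a * mon y e * b0 ∧ dm D e ∈ W0))
    (T : Finset K) (hT : T ⊆ Bf) :
    ∃ C ⊆ T, (LinearIndependent F fun b : C => S0.mkQ (b : K)) ∧
      ∀ b ∈ T, dm D (ex y b) ∈ W0 ⊔ Submodule.span κ ((fun c => dm D (ex y c)) '' (C : Set K)) := by
  classical
  induction T using Finset.strongInduction with
  | H T ih =>
    by_cases hli : LinearIndependent F (fun b : T => S0.mkQ (b : K))
    · exact ⟨T, subset_rfl, hli, fun b hb => Submodule.mem_sup_right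
        (Submodule.subset_span ⟨b, Finset.mem_coe.2 hb, rfl⟩)⟩
    · obtain ⟨g, hg1, hg2, hg3⟩ := H T hT hli
      let J : Finset K := T.filter fun b => g b ≠ 0
      have hJ : ∀ b ∈ J, b ∈ T ∧ g b ≠ 0 := fun b hb => Finset.mem_filter.1 hb
      have hch : ∀ b : K, ∃ (a : K) (e : Fin n → ℤ), b ∈ T → g b ≠ 0 →
          a ∈ A ∧ g b = a * mon y e ∧ dm D e ∈ W0 := by
        intro b
        by_cases hb : b ∈ T ∧ g b ≠ 0
        · obtain ⟨a, ha, e, h1, h2⟩ := hg2 b hb.1 hb.2
          exact ⟨a, e, fun _ _ => ⟨ha, h1, h2⟩⟩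
        · exact ⟨0, 0, fun h1 h2 => absurd ⟨h1, h2⟩ hb⟩
      choose a e hae using hch
      let ψ : Fin J.card → K := fun i => (J.equivFin.symm i).1
      have hψ : ∀ i, ψ i ∈ J := fun i => (J.equivFin.symm i).2
      have hψi : Function.Injective ψ := fun i j hij =>
        J.equivFin.symm.injective (Subtype.ext hij)
      have hψK : ∀ (Q : K → K), ∑ i, Q (ψ i) = ∑ b ∈ J, Q b := by
        intro Q
        rw [← Finset.sum_coe_sort J Q]
        exact Fintype.sum_equiv J.equivFin.symm _ _ fun i => rfl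
      have hrel : ∑ i, a (ψ i) * mon y (e (ψ i) + ex y (ψ i)) = ∑ b ∈ T, g b * b := by
        rw [hψK fun b => a b * mon y (e b + ex y b)]
        rw [← Finset.sum_filter_of_ne (s := T) (p := fun b => g b ≠ 0)
          (f := fun b => g b * b) fun b _ hb h0 => hb (by simp only [h0, zero_mul])]
        refine Finset.sum_congr rfl fun b hb => ?_
        obtain ⟨h1, h2⟩ := hJ b hb
        obtain ⟨h3, h4, h5⟩ := hae b h1 h2
        rw [mon_add hy0, mon_ex hy (hBf b (hT h1)), ← mul_assoc, ← h4]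
      obtain ⟨b1, hb1, hgb1⟩ := hg1
      have hne : Nonempty (Fin J.card) := by
        rw [← Fin.pos_iff_nonempty, Finset.card_pos]
        exact ⟨b1, Finset.mem_filter.2 ⟨hb1, hgb1⟩⟩
      -- the element which can be removed
      have hkey : ∃ i : Fin J.card, dm D (e (ψ i) + ex y (ψ i)) ∈ W0 ⊔
          Submodule.span κ ((fun j => dm D (e (ψ j) + ex y (ψ j))) '' {j | j ≠ i}) := by
        rcases hg3 with h1 | ⟨b0, hb0, a0, ha0, e0, h1, h2⟩
        · obtain ⟨i, -, hi⟩ := exists_rel' h (fun i => a (ψ i))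
            (fun i => (hae _ (hJ _ (hψ i)).1 (hJ _ (hψ i)).2).1)
            (fun i => e (ψ i) + ex y (ψ i)) (by rw [hrel, h1]) ∅ Set.subsingleton_empty W0
            (fun j hj => absurd hj (Set.notMem_empty j))
          refine ⟨i, ?_⟩
          have h3 : {j : Fin J.card | j ≠ i ∧ j ∉ (∅ : Set (Fin J.card))} = {j | j ≠ i} := by
            ext j
            simp
          rw [h3] at hi
          exact hi
        · obtain ⟨i, hi0, hi⟩ := exists_rel' h (J := Option (Fin J.card))
            (fun o => o.elim (-a0) fun i => a (ψ i)) (by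
              rintro (_ | i)
              · exact hneg a0 ha0
              · exact (hae _ (hJ _ (hψ i)).1 (hJ _ (hψ i)).2).1)
            (fun o => o.elim (e0 + ex y b0) fun i => e (ψ i) + ex y (ψ i)) (by
              rw [Fintype.sum_option]
              simp only [Option.elim_none, Option.elim_some]
              rw [hrel, h1, mon_add hy0, mon_ex hy (hB0 b0 hb0).1]
              ring) {none} Set.subsingleton_singleton W0 (by
              rintro _ rfl
              change dm D (e0 + ex y b0) ∈ W0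
              rw [dm_add]
              exact Submodule.add_mem _ h2 (hB0 b0 hb0).2)
          rcases i with _ | i
          · exact absurd rfl hi0
          · refine ⟨i, ?_⟩
            have h3 : (fun o : Option (Fin J.card) => dm D (o.elim (e0 + ex y b0)
                fun i => e (ψ i) + ex y (ψ i))) '' {o | o ≠ some i ∧ o ∉ ({none} : Set _)} ⊆
                (fun j => dm D (e (ψ j) + ex y (ψ j))) '' {j | j ≠ i} := by
              rintro _ ⟨o, ⟨h4, h5⟩, rfl⟩
              rcases o with _ | j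
              · exact absurd rfl h5
              · exact ⟨j, fun h6 => h4 (by rw [h6]), rfl⟩
            have h6 : W0 ⊔ Submodule.span κ ((fun o : Option (Fin J.card) =>
                dm D (o.elim (e0 + ex y b0) fun i => e (ψ i) + ex y (ψ i))) ''
                  {o | o ≠ some i ∧ o ∉ ({none} : Set _)}) ≤ W0 ⊔ Submodule.span κ
                    ((fun j => dm D (e (ψ j) + ex y (ψ j))) '' {j | j ≠ i}) :=
              sup_le_sup_left (Submodule.span_mono h3) _
            exact h6 hi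
      obtain ⟨i1, hi1⟩ := hkey
      let c1 : K := ψ i1
      have hc1T : c1 ∈ T := (hJ _ (hψ i1)).1
      obtain ⟨C, hC1, hC2, hC3⟩ := ih (T.erase c1) (Finset.erase_ssubset hc1T)
        ((Finset.erase_subset _ _).trans hT)
      refine ⟨C, hC1.trans (Finset.erase_subset _ _), hC2, ?_⟩
      intro b hb
      by_cases hbc : b = c1
      · have h5 : dm D (e (ψ i1) + ex y (ψ i1)) ∈
            W0 ⊔ Submodule.span κ ((fun c => dm D (ex y c)) '' (C : Set K)) := by
          have h8 : W0 ⊔ Submodule.span κ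
              ((fun j => dm D (e (ψ j) + ex y (ψ j))) '' {j | j ≠ i1}) ≤
              W0 ⊔ Submodule.span κ ((fun c => dm D (ex y c)) '' (C : Set K)) := by
            refine sup_le le_sup_left ?_
            rw [Submodule.span_le]
            rintro _ ⟨j, hj, rfl⟩
            change dm D (e (ψ j) + ex y (ψ j)) ∈ _
            rw [dm_add]
            exact Submodule.add_mem _ (Submodule.mem_sup_left
              (hae _ (hJ _ (hψ j)).1 (hJ _ (hψ j)).2).2.2)
              (hC3 _ (Finset.mem_erase.2 ⟨fun h6 => hj (hψi h6), (hJ _ (hψ j)).1⟩))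
          exact h8 hi1
        rw [dm_add] at h5
        have h7 : dm D (e (ψ i1)) ∈
            W0 ⊔ Submodule.span κ ((fun c => dm D (ex y c)) '' (C : Set K)) :=
          Submodule.mem_sup_left (hae _ (hJ _ (hψ i1)).1 (hJ _ (hψ i1)).2).2.2
        have h6 := Submodule.sub_mem _ h5 h7
        rw [add_sub_cancel_left] at h6
        rw [hbc]
        exact h6
      · exact hC3 b (Finset.mem_erase.2 ⟨hbc, hb⟩)

end block

section

variable {k K : Type u} [Field k] [Field K] [Algebra k K] {m : ℕ}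
  {E : Fin m → IntermediateField k K}

/-- Adding a Frobenius arrangement. -/
theorem good_arr {p : ℕ} [Fact p.Prime] [CharP k p] {F : IntermediateField k K}
    {G : Subgroup Kˣ} {d : ℕ} (hG : Good E G d) {B B0 : Finset K}
    (hB : IsFrobeniusArrangement p F G B B0) {D0 : ℕ}
    (hD0 : D0 + Module.finrank F (Submodule.span F (B0 : Set K)) =
      Module.finrank F (Submodule.span F (B : Set K))) :
    Good E (G ⊔ Subgroup.closure {u : Kˣ | (u : K) ∈ B}) (d + D0) := by
  classical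
  intro T' hT'
  rw [← Subgroup.closure_eq G, ← Subgroup.closure_union] at hT'
  obtain ⟨T1, hT1, hT1'⟩ := exists_finset_closure' _ T' hT'
  obtain ⟨TG, hTG1, hTG2⟩ := frob_circuits hB
  -- the roots
  have hpw : ∀ b : K, ∃ (g v : Kˣ) (Tv : Finset Kˣ), g ∈ G ∧
      (Tv : Set Kˣ) ⊆ (G : Set Kˣ) ∪ {u : Kˣ | (u : K) ∈ B} ∧
      v ∈ Subgroup.closure (Tv : Set Kˣ) ∧ (b ∈ B0 → b = (g : K) * (v : K) ^ p) := by
    intro b
    by_cases hb : b ∈ B0
    · obtain ⟨g, hg, v, hv, h1⟩ := hB.powers b hb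
      rw [← Subgroup.closure_eq G, ← Subgroup.closure_union] at hv
      obtain ⟨Tv, hTv1, hTv2⟩ := exists_finset_closure _ hv
      exact ⟨g, v, Tv, hg, hTv1, hTv2, fun _ => h1⟩
    · exact ⟨1, 1, ∅, one_mem G, by simp, one_mem _, fun h => absurd h hb⟩
  choose g v Tv hg hTv1 hTv2 hgv using hpw
  obtain ⟨n, y, hy0, hy, hyT, hyB⟩ := hG ((T1 ∪ B0.biUnion Tv).filter (fun u => u ∈ G) ∪
      (TG ∪ B0.image g)) (by
    intro u hu
    rcases Finset.mem_union.1 hu with h | h
    · exact (Finset.mem_filter.1 h).2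
    · rcases Finset.mem_union.1 h with h | h
      · exact hTG1 u h
      · obtain ⟨b, -, rfl⟩ := Finset.mem_image.1 h
        exact hg b)
  obtain ⟨n', y', φ, hy', hy'0, hφ, hφy, hZ, hyZ⟩ := exists_ext hy hy0 B (by
    rintro b hb rfl
    exact hB.nonzero hb)
  refine ⟨n', y', hy'0, hy', ?_, ?_⟩
  · intro u hu
    refine (Subgroup.closure_le _).2 ?_ (hT1' u hu)
    intro x hx
    rcases hT1 hx with hxG | hxB
    · exact monoGrp_mono φ hφ hφy (hyT x (Finset.mem_union_left _
        (Finset.mem_filter.2 ⟨Finset.mem_union_left _ hx, hxG⟩)))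
    · exact mem_monoGrp_of_range (hZ _ hxB)
  · intro Γ κ W _ _ _ _ _ _ _ σ l z w ζ D hσ h
    have hr := h.restrict φ hφ
    rw [hφy] at hr
    have hd := hyB Γ κ W σ l z _ _ _ hσ hr
    let W0 : Submodule κ W := Submodule.span κ (Set.range (D ∘ φ))
    have hcK : CharP K p := charP_of_injective_algebraMap (algebraMap k K).injective p
    have hpκ : (p : κ) = 0 := h.char prk_one p
    have hGr : ∀ u : Kˣ, u ∈ monoGrp E y hy0 → ∃ a ∈ PrK E, ∃ e : Fin n' → ℤ,
        (u : K) = a * mon y' e ∧ dm D e ∈ W0 := by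
      rintro u ⟨a, ha, e, hu⟩
      refine ⟨a, ha, Function.extend φ e 0, ?_, ?_⟩
      · rw [mon_ext hφ, hφy, hu]
      · rw [dm_ext hφ]
        refine Submodule.sum_mem _ fun j _ => ?_
        have h1 : (D ∘ φ) j ∈ W0 := Submodule.subset_span ⟨j, rfl⟩
        exact zsmul_mem h1 _
    have hB0 : ∀ b ∈ B0, b ∈ Set.range y' ∧ dm D (ex y' b) ∈ W0 := by
      intro b hb
      have hbr : b ∈ Set.range y' := hZ b (hB.subset hb)
      refine ⟨hbr, ?_⟩
      obtain ⟨a, ha, e, h1, h2⟩ := hGr (g b) (hyT _ (Finset.mem_union_right _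
        (Finset.mem_union_right _ (Finset.mem_image_of_mem g hb))))
      have hv' : v b ∈ monoGrp E y' hy'0 := by
        refine (Subgroup.closure_le _).2 ?_ (hTv2 b)
        intro x hx
        rcases hTv1 b hx with hxG | hxB
        · exact monoGrp_mono φ hφ hφy (hyT x (Finset.mem_union_left _
            (Finset.mem_filter.2 ⟨Finset.mem_union_right _
              (Finset.mem_biUnion.2 ⟨b, hb, Finset.mem_coe.1 hx⟩), hxG⟩)))
        · exact mem_monoGrp_of_range (hZ _ hxB)
      obtain ⟨a', ha', e', h3⟩ := hv'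
      have hpw : a' ^ p ∈ PrK E :=
        (h.pow prk_one (fun a ha b hb => prk_mul ha hb) ha' p).1
      have h4 := h.rel_two (fun a ha => prk_neg ha) prk_one (prk_mul ha hpw)
        (e := ex y' b) (e' := e + p • e') (by
          rw [one_mul, mon_ex hy' hbr, mon_add hy'0, mon_nsmul hy'0]
          conv_lhs => rw [hgv b hb, h1, h3]
          ring)
      rw [h4, dm_add, dm_nsmul (κ := κ), hpκ, zero_smul, add_zero]
      exact h2
    obtain ⟨C, hC1, hC2, hC3⟩ := frob_block h (fun a ha => prk_neg ha) hy' hy'0 F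
      (Submodule.span F (B0 : Set K)) W0 (B \ B0) B0 (fun b hb => hZ b (Finset.mem_sdiff.1 hb).1)
      hB0 (by
        intro T hT hdep
        obtain ⟨g', hg1, hg2, hg3⟩ := hTG2 T (hT.trans Finset.sdiff_subset)
          (Finset.disjoint_of_subset_left hT Finset.sdiff_disjoint) hdep
        refine ⟨g', hg1, fun b hb hb' => ?_, ?_⟩
        · obtain ⟨u, hu, h1⟩ := hg2 b hb hb'
          obtain ⟨a, ha, e, h2, h3⟩ := hGr u (hyT u (Finset.mem_union_right _
            (Finset.mem_union_left _ hu)))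
          exact ⟨a, ha, e, by rw [← h1, h2], h3⟩
        · rcases hg3 with h1 | ⟨b0, hb0, u, hu, h1⟩
          · exact Or.inl h1
          · obtain ⟨a, ha, e, h2, h3⟩ := hGr u (hyT u (Finset.mem_union_right _
              (Finset.mem_union_left _ hu)))
            exact Or.inr ⟨b0, hb0, a, ha, e, by rw [h1, h2], h3⟩) (B \ B0) subset_rfl
    have hcard : C.card ≤ D0 := by
      let V : Submodule F K := Submodule.span F (B : Set K)
      let S0 : Submodule F K := Submodule.span F (B0 : Set K)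
      have hVfin : FiniteDimensional F V :=
        FiniteDimensional.span_of_finite F (Finset.finite_toSet B)
      let θ : V →ₗ[F] (K ⧸ S0) := S0.mkQ.comp V.subtype
      have h1 := LinearMap.finrank_range_add_finrank_ker θ
      have hS0V : S0 ≤ V := Submodule.span_mono (Finset.coe_subset.2 hB.subset)
      have h2 : Module.finrank F (LinearMap.ker θ) = Module.finrank F S0 := by
        have h3 : LinearMap.ker θ = Submodule.comap V.subtype S0 := by
          rw [LinearMap.ker_comp, Submodule.ker_mkQ]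
        rw [h3]
        exact (Submodule.comapSubtypeEquivOfLe hS0V).finrank_eq
      have h4 : C.card ≤ Module.finrank F (LinearMap.range θ) := by
        have hCV : ∀ b : C, (b : K) ∈ V := fun b => Submodule.subset_span
          (Finset.mem_coe.2 (Finset.mem_sdiff.1 (hC1 b.2)).1)
        have h5 : LinearIndependent F fun b : C =>
            (⟨S0.mkQ (b : K), ⟨(⟨b, hCV b⟩ : V), rfl⟩⟩ : LinearMap.range θ) := by
          refine LinearIndependent.of_comp (LinearMap.range θ).subtype ?_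
          exact hC2
        have h6 := h5.fintype_card_le_finrank
        rwa [Fintype.card_coe] at h6
      have h7 : D0 + Module.finrank F S0 = Module.finrank F V := hD0
      omega
    have hle : Submodule.span κ (Set.range D) ≤
        W0 ⊔ Submodule.span κ ((fun c => dm D (ex y' c)) '' (C : Set K)) := by
      rw [Submodule.span_le]
      rintro _ ⟨j, rfl⟩
      rcases hyZ j with ⟨j', rfl⟩ | hj
      · exact Submodule.mem_sup_left (Submodule.subset_span ⟨j', rfl⟩)
      · rw [← dm_ex hy' D j]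
        by_cases hj0 : y' j ∈ B0
        · exact Submodule.mem_sup_left (hB0 _ hj0).2
        · exact hC3 _ (Finset.mem_sdiff.2 ⟨hj, hj0⟩)
    have hf1 : FiniteDimensional κ W0 := FiniteDimensional.span_of_finite κ (Set.finite_range _)
    have hf2 : FiniteDimensional κ
        (Submodule.span κ ((fun c => dm D (ex y' c)) '' (C : Set K))) :=
      FiniteDimensional.span_of_finite κ ((Finset.finite_toSet C).image _)
    refine (Submodule.finrank_mono hle).trans
      ((Submodule.finrank_add_le_finrank_add_finrank _ _).trans ?_)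
    refine Nat.add_le_add hd ?_
    have h5 := finrank_span_finset_le_card (R := κ) (C.image fun c => dm D (ex y' c))
    rw [Finset.coe_image] at h5
    exact h5.trans (Finset.card_image_le.trans hcard)

end

end Pool.Agent.T6.H12.X
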