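import Pool.Agent.T6.H12.Diff
import Pool.Agent.T6.H12.X.Good

/-!
# Adding differences
-/

set_option autoImplicit false
set_option linter.unusedSectionVars false

universe u

open Polynomial Pool.Agent.TH214.SD Pool.Agent.W558

namespace Pool.Agent.T6.H12.X


section

variable {k K : Type u} [Field k] [Field K] [Algebra k K] {m : ℕ}
  {E : Fin m → IntermediateField k K}

/-- Adding differences. -/
theorem good_diff {p : ℕ} [Fact p.Prime] [CharP k p] {G : Subgroup Kˣ} {d : ℕ}
    (hG : Good E G d) : Good E (G ⊔ Subgroup.closure (differences p G)) d := by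
  classical
  intro T' hT'
  have hcK : CharP K p := charP_of_injective_algebraMap (algebraMap k K).injective p
  rw [← Subgroup.closure_eq G, ← Subgroup.closure_union] at hT'
  obtain ⟨T1, hT1, hT1'⟩ := exists_finset_closure' _ T' hT'
  rw [Subgroup.closure_eq] at hT1
  have hch : ∀ u : Kˣ, ∃ (N : ℕ) (a b v : Kˣ), a ∈ G ∧ b ∈ G ∧ v ∈ G ∧
      (u ∈ differences p G → ¬ p ∣ N ∧ (u : K) = a - b ∧ (v : K) = a ^ N - b ^ N) := by
    intro u
    by_cases hu : u ∈ differences p G
    · obtain ⟨N, a, b, v, h1, h2, h3, h4, h5, h6⟩ := hu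
      exact ⟨N, a, b, v, h2, h3, h4, fun _ => ⟨h1, h5, h6⟩⟩
    · exact ⟨0, 1, 1, 1, one_mem G, one_mem G, one_mem G, fun h => absurd h hu⟩
  choose N a b v ha hb hv huv using hch
  let T2 : Finset Kˣ := T1.filter fun u => u ∈ differences p G
  obtain ⟨n, y, hy0, hy, hyT, hyB⟩ := hG ((T1.filter fun u => u ∈ G) ∪
      (T2.image a ∪ (T2.image b ∪ T2.image v))) (by
    intro u hu
    simp only [Finset.mem_union, Finset.mem_image, Finset.mem_filter] at hu
    rcases hu with ⟨-, h⟩ | ⟨x, -, rfl⟩ | ⟨x, -, rfl⟩ | ⟨x, -, rfl⟩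
    · exact h
    · exact ha x
    · exact hb x
    · exact hv x)
  obtain ⟨n', y', φ, hy', hy'0, hφ, hφy, hZ, hyZ⟩ := exists_ext hy hy0
    (T2.image (fun u : Kˣ => (u : K)) ∪ T2.image fun u : Kˣ => (v u : K) / u) (by
    intro c hc
    simp only [Finset.mem_union, Finset.mem_image] at hc
    rcases hc with ⟨x, -, rfl⟩ | ⟨x, -, rfl⟩
    · exact x.ne_zero
    · exact div_ne_zero (v x).ne_zero x.ne_zero)
  refine ⟨n', y', hy'0, hy', ?_, ?_⟩
  · intro u hu
    refine (Subgroup.closure_le _).2 ?_ (hT1' u hu)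
    intro x hx
    rcases hT1 hx with hxG | hxd
    · exact monoGrp_mono φ hφ hφy (hyT x (Finset.mem_union_left _
        (Finset.mem_filter.2 ⟨hx, hxG⟩)))
    · refine mem_monoGrp_of_range (hZ _ (Finset.mem_union_left _ ?_))
      exact Finset.mem_image_of_mem (fun u : Kˣ => (u : K)) (Finset.mem_filter.2 ⟨hx, hxd⟩)
  · intro Γ κ W _ _ _ _ _ _ _ σ l z w ζ D hσ h
    have hr := h.restrict φ hφ
    rw [hφy] at hr
    have hd := hyB Γ κ W σ l z _ _ _ hσ hr
    let W0 : Submodule κ W := Submodule.span κ (Set.range (D ∘ φ))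
    have hGr : ∀ u : Kˣ, u ∈ monoGrp E y hy0 → ∃ a ∈ PrK E, ∃ e : Fin n' → ℤ,
        (u : K) = a * mon y' e ∧ dm D e ∈ W0 := by
      rintro u ⟨a, ha, e, hu⟩
      refine ⟨a, ha, Function.extend φ e 0, ?_, ?_⟩
      · rw [mon_ext hφ, hφy, hu]
      · rw [dm_ext hφ]
        refine Submodule.sum_mem _ fun j _ => ?_
        have h1 : (D ∘ φ) j ∈ W0 := Submodule.subset_span ⟨j, rfl⟩
        exact zsmul_mem h1 _
    have key : ∀ u ∈ T2, dm D (ex y' (u : K)) ∈ W0 ∧ dm D (ex y' ((v u : K) / u)) ∈ W0 := by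
      intro u hu
      obtain ⟨hN, huab, hvab⟩ := huv u (Finset.mem_filter.1 hu).2
      obtain ⟨ca, hca, ea, h1, h2⟩ := hGr (a u) (hyT _ (Finset.mem_union_right _
        (Finset.mem_union_left _ (Finset.mem_image_of_mem a hu))))
      obtain ⟨cb, hcb, eb, h3, h4⟩ := hGr (b u) (hyT _ (Finset.mem_union_right _
        (Finset.mem_union_right _ (Finset.mem_union_left _ (Finset.mem_image_of_mem b hu)))))
      obtain ⟨cv, hcv, ev, h5, h6⟩ := hGr (v u) (hyT _ (Finset.mem_union_right _
        (Finset.mem_union_right _ (Finset.mem_union_right _ (Finset.mem_image_of_mem v hu)))))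
      have hru : (u : K) ∈ Set.range y' := hZ _ (Finset.mem_union_left _
        (Finset.mem_image_of_mem (fun u : Kˣ => (u : K)) hu))
      have hrg : (v u : K) / u ∈ Set.range y' := hZ _ (Finset.mem_union_right _
        (Finset.mem_image_of_mem (fun u : Kˣ => (v u : K) / u) hu))
      refine h.diff prk_one (fun a ha b hb => prk_mul ha hb) (fun a ha => prk_neg ha) hy'0
        p (N u) hN W0 hca hcb hcv h2 h4 h6 ?_ ?_ ?_
      · rw [mon_ex hy' hru, ← h1, ← h3, huab]
      · rw [← h5, ← h1, ← h3, hvab]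
      · rw [mon_ex hy' hru, mon_ex hy' hrg, ← h5]
        field_simp
    have hle : Submodule.span κ (Set.range D) ≤ W0 := by
      rw [Submodule.span_le]
      rintro _ ⟨j, rfl⟩
      rcases hyZ j with ⟨j', rfl⟩ | hj
      · exact Submodule.subset_span ⟨j', rfl⟩
      · simp only [Finset.mem_union, Finset.mem_image] at hj
        rcases hj with ⟨x, hx, hxj⟩ | ⟨x, hx, hxj⟩
        · have h1 := (key x hx).1
          rw [hxj, dm_ex hy'] at h1
          exact h1
        · have h1 := (key x hx).2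
          rw [hxj, dm_ex hy'] at h1
          exact h1
    have hf1 : FiniteDimensional κ W0 := FiniteDimensional.span_of_finite κ (Set.finite_range _)
    exact (Submodule.finrank_mono hle).trans hd

end

end Pool.Agent.T6.H12.X
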