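import Pool.Agent.T6.H12.X.Good

/-!
# Adding a variable
-/

set_option autoImplicit false
set_option linter.unusedSectionVars false

universe u

open Polynomial Pool.Agent.TH214.SD Pool.Agent.W558

namespace Pool.Agent.T6.H12.X

section

variable {k K : Type u} [Field k] [Field K] [Algebra k K] {m n : ℕ}
  {E : Fin m → IntermediateField k K}

/-- The polynomials of degree less than `p` in a new variable. -/
theorem good_line {p : ℕ} [Fact p.Prime] [CharP k p] {G : Subgroup Kˣ} {d : ℕ} (hG : Good E G d)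
    (i : Fin m) {x : K} (hx : Transcendental (E i) x) :
    Good E (G ⊔ Subgroup.closure {u : Kˣ | ∃ P : (E i)[X], P.natDegree < p ∧ aeval x P = u})
      (d + 1) := by
  classical
  intro T' hT'
  have hchar : CharP (E i) p := charP_of_injective_algebraMap (algebraMap k (E i)).injective p
  rw [← Subgroup.closure_eq G, ← Subgroup.closure_union] at hT'
  obtain ⟨T1, hT1, hT1'⟩ := exists_finset_closure' _ T' hT'
  obtain ⟨n, y, hy0, hy, hyT, hyB⟩ := hG (T1.filter fun u => u ∈ G) fun u hu =>
    (Finset.mem_filter.1 hu).2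
  have hinj : Function.Injective (aeval x : (E i)[X] → K) := transcendental_iff_injective.1 hx
  have hfin : {Q : (E i)[X] | ∃ u ∈ T1, aeval x Q = (u : K)}.Finite := by
    have h1 : ((Units.val '' (T1 : Set Kˣ))).Finite := (Finset.finite_toSet T1).image _
    have h2 := h1.preimage (f := (aeval x : (E i)[X] → K)) hinj.injOn
    refine h2.subset ?_
    rintro Q ⟨u, hu, hQ⟩
    exact ⟨u, hu, hQ.symm⟩
  obtain ⟨P, h1, h2, h3⟩ := exists_closed (p := p)
    (hfin.toFinset.filter fun Q => Q.natDegree < p) (by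
    intro Q hQ
    obtain ⟨h4, h5⟩ := Finset.mem_filter.1 hQ
    obtain ⟨u, hu, h6⟩ := hfin.mem_toFinset.1 h4
    refine ⟨?_, h5⟩
    rintro rfl
    rw [map_zero] at h6
    exact u.ne_zero h6.symm)
  have hPx : ∀ Q ∈ P, aeval x Q ≠ 0 := fun Q hQ h0 =>
    (h2 Q hQ).1 (transcendental_iff.1 hx Q h0)
  obtain ⟨n', y', φ, hy', hy'0, hφ, hφy, hZ, hyZ⟩ := exists_ext hy hy0 (P.image (aeval x)) (by
    intro b hb
    obtain ⟨Q, hQ, rfl⟩ := Finset.mem_image.1 hb
    exact hPx Q hQ)
  refine ⟨n', y', hy'0, hy', ?_, ?_⟩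
  · intro u hu
    refine (Subgroup.closure_le _).2 ?_ (hT1' u hu)
    intro v hv
    rcases hT1 hv with hvG | ⟨Q, hQ1, hQ2⟩
    · exact monoGrp_mono φ hφ hφy (hyT v (Finset.mem_filter.2 ⟨hv, hvG⟩))
    · refine mem_monoGrp_of_range (hZ _ ?_)
      rw [← hQ2]
      exact Finset.mem_image_of_mem _ (h1 (Finset.mem_filter.2
        ⟨hfin.mem_toFinset.2 ⟨v, hv, hQ2⟩, hQ1⟩))
  · intro Γ κ W _ _ _ _ _ _ _ σ l z w ζ D hσ h
    have hr := h.restrict φ hφ
    rw [hφy] at hr
    have hd := hyB Γ κ W σ l z _ _ _ hσ hr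
    obtain ⟨τ, hτ⟩ := line_part (p := p) h hy' (E i) (fun a ha h0 => prk_mem i ha h0) hx P h2 h3
      fun Q hQ => hZ _ (Finset.mem_image_of_mem _ hQ)
    have hle : Submodule.span κ (Set.range D) ≤
        Submodule.span κ (Set.range (D ∘ φ)) ⊔ Submodule.span κ {τ} := by
      rw [Submodule.span_le]
      rintro _ ⟨j, rfl⟩
      rcases hyZ j with ⟨j', rfl⟩ | hj
      · exact Submodule.mem_sup_left (Submodule.subset_span ⟨j', rfl⟩)
      · obtain ⟨Q, hQ, hQj⟩ := Finset.mem_image.1 hj
        obtain ⟨c, hc⟩ := hτ Q hQ j hQj.symm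
        rw [hc]
        exact Submodule.mem_sup_right (Submodule.smul_mem _ _ (Submodule.mem_span_singleton_self τ))
    have hf1 : FiniteDimensional κ (Submodule.span κ (Set.range (D ∘ φ))) :=
      FiniteDimensional.span_of_finite κ (Set.finite_range _)
    have hf2 : FiniteDimensional κ (Submodule.span κ ({τ} : Set W)) :=
      FiniteDimensional.span_of_finite κ (Set.finite_singleton _)
    refine (Submodule.finrank_mono hle).trans
      ((Submodule.finrank_add_le_finrank_add_finrank _ _).trans ?_)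
    refine Nat.add_le_add hd ?_
    have h5 := finrank_span_le_card (R := κ) ({τ} : Set W)
    rw [Set.toFinset_singleton, Finset.card_singleton] at h5
    exact h5

end

end Pool.Agent.T6.H12.X
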