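import Pool.Agent.T6.H12.X.Pull

/-!
# Adding a pull-back of a tame map
-/

set_option autoImplicit false
set_option linter.unusedSectionVars false

universe u

open Polynomial Pool.Agent.TH214.SD Pool.Agent.W558

namespace Pool.Agent.T6.H12.X

section poly

variable {k : Type u} [Field k]

lemma dvd_natDegree (p : ℕ) [CharP k p] {P : k[X]} (h0 : P ≠ 0) (h : derivative P = 0) :
    p ∣ P.natDegree := by
  by_cases hd : P.natDegree = 0
  · rw [hd]
    exact dvd_zero p
  · have h1 : (derivative P).coeff (P.natDegree - 1) = 0 := by rw [h, coeff_zero]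
    rw [coeff_derivative, Nat.sub_add_cancel (Nat.pos_of_ne_zero hd)] at h1
    have h2 := (mul_eq_zero.1 h1).resolve_left (leadingCoeff_ne_zero.2 h0)
    rw [← CharP.cast_eq_zero_iff k p]
    have h3 : P.natDegree = (P.natDegree - 1) + 1 := by omega
    rw [h3, Nat.cast_succ]
    exact h2

lemma jac_ne {p : ℕ} [CharP k p] {P Q : k[X]} {B : Set k} (hP : IsTameMap p P Q B) :
    derivative P * Q - P * derivative Q ≠ 0 := by
  intro h0
  have hP0 : P ≠ 0 := by
    rintro rfl
    have := hP.degree.1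
    rw [natDegree_zero] at this
    exact absurd this (Nat.not_lt_zero _)
  have h1 : derivative P * Q = P * derivative Q := sub_eq_zero.1 h0
  have h2 : P ∣ derivative P * Q := ⟨_, h1⟩
  have h3 : P ∣ derivative P := hP.coprime.dvd_of_dvd_mul_right h2
  have h4 : derivative P = 0 := by
    by_contra h5
    have h6 := natDegree_le_of_dvd h3 h5
    have h7 := hP.degree.1
    have h8 := natDegree_derivative_lt (p := P) (by omega)
    omega
  have h5 : derivative Q = 0 := by
    rw [h4, zero_mul] at h1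
    exact (mul_eq_zero.1 h1.symm).resolve_left hP0
  have h6 := dvd_natDegree p hP0 h4
  by_cases hQ0 : Q = 0
  · have h9 := hP.degree.2
    rw [hQ0, natDegree_zero, Nat.sub_zero] at h9
    exact h9 h6
  · exact hP.degree.2 ((Nat.dvd_sub h6 (dvd_natDegree p hQ0 h5)))

end poly

section

variable {k K : Type u} [Field k] [IsAlgClosed k] [Field K] [Algebra k K] {m : ℕ}
  {E : Fin m → IntermediateField k K}

/-- Adding a pull-back of a tame map. -/
theorem good_pull {p : ℕ} [Fact p.Prime] [CharP k p] {G : Subgroup Kˣ} {d : ℕ} (hG : Good E G d)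
    {P Q : k[X]} {B : Set k} (hP : IsTameMap p P Q B) {f x : K}
    (hf : ∀ c ∈ B, ∃ u ∈ G, f - algebraMap k K c = ((u : Kˣ) : K))
    (hx : aeval x P = f * aeval x Q) :
    Good E (G ⊔ Subgroup.closure {u : Kˣ | ∃ a : k,
      (Q.IsRoot a ∨ ∃ c ∈ B, (P - C c * Q).IsRoot a) ∧ (u : K) = x - algebraMap k K a}) d := by
  classical
  intro T' hT'
  rw [← Subgroup.closure_eq G, ← Subgroup.closure_union] at hT'
  obtain ⟨T1, hT1, hT1'⟩ := exists_finset_closure' _ T' hT'
  have hJ0 := jac_ne hP
  have hcK : CharP K p := charP_of_injective_algebraMap (algebraMap k K).injective p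
  obtain ⟨cd, hcd⟩ := hP.nonempty
  have hch : ∀ a : k, ∃ c ∈ B, (∃ c' ∈ B, (P - C c' * Q).IsRoot a) → (P - C c * Q).IsRoot a := by
    intro a
    by_cases h : ∃ c' ∈ B, (P - C c' * Q).IsRoot a
    · obtain ⟨c', h1, h2⟩ := h
      exact ⟨c', h1, fun _ => h2⟩
    · exact ⟨cd, hcd, fun h1 => absurd h1 h⟩
  choose ch hch1 hch2 using hch
  have hpt : ∀ u : Kˣ, ∃ a : k, (∃ a : k, (Q.IsRoot a ∨ ∃ c ∈ B, (P - C c * Q).IsRoot a) ∧
      (u : K) = x - algebraMap k K a) →
      (Q.IsRoot a ∨ ∃ c ∈ B, (P - C c * Q).IsRoot a) ∧ (u : K) = x - algebraMap k K a := by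
    intro u
    by_cases h : ∃ a : k, (Q.IsRoot a ∨ ∃ c ∈ B, (P - C c * Q).IsRoot a) ∧
      (u : K) = x - algebraMap k K a
    · obtain ⟨a, ha⟩ := h
      exact ⟨a, fun _ => ha⟩
    · exact ⟨0, fun h1 => absurd h1 h⟩
  choose pt hpt using hpt
  let B1 : Finset k := insert cd (((derivative P * Q - P * derivative Q).roots.toFinset ∪
    T1.image pt).image ch)
  have hB1 : ∀ c ∈ B1, c ∈ B := by
    intro c hc
    rcases Finset.mem_insert.1 hc with rfl | hc
    · exact hcd
    · obtain ⟨a, -, rfl⟩ := Finset.mem_image.1 hc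
      exact hch1 a
  have hQ0 : Q ≠ 0 := by
    rintro rfl
    obtain ⟨u, v, huv⟩ := hP.coprime
    rw [mul_zero, add_zero] at huv
    have h2 : IsUnit P := IsUnit.of_mul_eq_one u (by rw [mul_comm]; exact huv)
    have h3 := natDegree_eq_zero_of_isUnit h2
    have := hP.degree.1
    rw [h3] at this
    exact absurd this (Nat.not_lt_zero _)
  have hR0 : ∀ c : k, P - C c * Q ≠ 0 := by
    intro c h0
    have h2 := natDegree_fib hP.degree.1 c
    rw [h0, natDegree_zero] at h2
    have := hP.degree.1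
    rw [← h2] at this
    exact absurd this (Nat.not_lt_zero _)
  let A1 : Finset k := Q.roots.toFinset ∪ B1.biUnion fun c => (P - C c * Q).roots.toFinset
  have hA1 : ∀ a, a ∈ A1 ↔ Q.IsRoot a ∨ ∃ c ∈ B1, (P - C c * Q).IsRoot a := by
    intro a
    rw [Finset.mem_union, Multiset.mem_toFinset, mem_roots hQ0, Finset.mem_biUnion]
    refine or_congr Iff.rfl (exists_congr fun c => and_congr Iff.rfl ?_)
    rw [Multiset.mem_toFinset, mem_roots (hR0 c)]
  have hcrit : ∀ a, (derivative P * Q - P * derivative Q).IsRoot a →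
      Q.IsRoot a ∨ ∃ c ∈ B1, (P - C c * Q).IsRoot a := by
    intro a ha
    rcases hP.critical a ha with h | h
    · exact Or.inl h
    · exact Or.inr ⟨ch a, Finset.mem_insert_of_mem (Finset.mem_image_of_mem _
        (Finset.mem_union_left _ (Multiset.mem_toFinset.2 ((mem_roots hJ0).2 ha)))), hch2 a h⟩
  -- the functions `x - a` are not zero
  have hxa : ∀ a ∈ A1, x - algebraMap k K a ≠ 0 := by
    intro a ha h0
    have hxe : x = algebraMap k K a := sub_eq_zero.1 h0
    have h1 : algebraMap k K (P.eval a) = f * algebraMap k K (Q.eval a) := by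
      rw [hxe] at hx
      rw [← aeval_algebraMap_apply_eq_algebraMap_eval,
        ← aeval_algebraMap_apply_eq_algebraMap_eval]
      exact hx
    rcases (hA1 a).1 ha with h2 | ⟨c, hc, h2⟩
    · refine not_root_both hP.coprime 0 a h2 ?_
      have h3 : P.eval a = 0 := by
        rw [show Q.eval a = 0 from h2, map_zero, mul_zero] at h1
        exact (map_eq_zero _).1 h1
      change (P - C 0 * Q).eval a = 0
      rw [map_zero, zero_mul, sub_zero]
      exact h3
    · have h3 : P.eval a = c * Q.eval a := by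
        have h4 : (P - C c * Q).eval a = 0 := h2
        rw [eval_sub, eval_mul, eval_C] at h4
        exact sub_eq_zero.1 h4
      obtain ⟨u, hu, h5⟩ := hf c (hB1 c hc)
      have h6 : Q.eval a ≠ 0 := by
        intro h7
        exact not_root_both hP.coprime c a h7 h2
      rw [h3, map_mul] at h1
      have h7 := mul_right_cancel₀ ((_root_.map_ne_zero _).2 h6) h1
      rw [← h7, sub_self] at h5
      exact u.ne_zero h5.symm
  choose! uc huc1 huc2 using hf
  obtain ⟨n, y, hy0, hy, hyT, hyB⟩ := hG (T1.filter (fun u => u ∈ G) ∪ B1.image uc) (by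
    intro u hu
    rcases Finset.mem_union.1 hu with h | h
    · exact (Finset.mem_filter.1 h).2
    · obtain ⟨c, hc, rfl⟩ := Finset.mem_image.1 h
      exact huc1 c (hB1 c hc))
  obtain ⟨n', y', φ, hy', hy'0, hφ, hφy, hZ, hyZ⟩ := exists_ext hy hy0
    (A1.image fun a => x - algebraMap k K a) (by
    intro b hb
    obtain ⟨a, ha, rfl⟩ := Finset.mem_image.1 hb
    exact hxa a ha)
  refine ⟨n', y', hy'0, hy', ?_, ?_⟩
  · intro u hu
    refine (Subgroup.closure_le _).2 ?_ (hT1' u hu)
    intro v hv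
    rcases hT1 hv with hvG | hvS
    · exact monoGrp_mono φ hφ hφy (hyT v (Finset.mem_union_left _
        (Finset.mem_filter.2 ⟨hv, hvG⟩)))
    · refine mem_monoGrp_of_range (hZ _ ?_)
      obtain ⟨h1, h2⟩ := hpt v hvS
      rw [h2]
      refine Finset.mem_image_of_mem (fun a => x - algebraMap k K a) ((hA1 _).2 ?_)
      rcases h1 with h1 | h1
      · exact Or.inl h1
      · exact Or.inr ⟨ch (pt v), Finset.mem_insert_of_mem (Finset.mem_image_of_mem _
          (Finset.mem_union_right _ (Finset.mem_image_of_mem _ hv))), hch2 _ h1⟩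
  · intro Γ κ W _ _ _ _ _ _ _ σ l z w ζ D hσ h
    have hr := h.restrict φ hφ
    rw [hφy] at hr
    have hd := hyB Γ κ W σ l z _ _ _ hσ hr
    let W0 : Submodule κ W := Submodule.span κ (Set.range (D ∘ φ))
    have hGr : ∀ u : Kˣ, u ∈ monoGrp E y hy0 → ∃ a ∈ PrK E, ∃ e : Fin n' → ℤ,
        (u : K) = a * mon y' e ∧ dm D e ∈ W0 := by
      rintro u ⟨a, ha, e, hu⟩
      refine ⟨a, ha, Function.extend φ e 0, ?_, ?_⟩
      · rw [mon_ext hφ, hφy, hu]
      · rw [dm_ext hφ]
        refine Submodule.sum_mem _ fun j _ => ?_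
        have h1 : (D ∘ φ) j ∈ W0 := Submodule.subset_span ⟨j, rfl⟩
        exact zsmul_mem h1 _
    have key := pull_aux h prk_one (fun a ha b hb => prk_mul ha hb) (fun c hc => prk_alg hc) hσ
      hy' hy'0 p x hP B1 hB1 ⟨cd, Finset.mem_insert_self _ _⟩ hcrit A1 hA1
      (fun a ha => hZ _ (Finset.mem_image_of_mem (fun a => x - algebraMap k K a) ha)) f hx W0
      (fun c hc => by
        obtain ⟨a, ha, e, h1, h2⟩ := hGr (uc c) (hyT _ (Finset.mem_union_right _
          (Finset.mem_image_of_mem uc hc)))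
        exact ⟨a, ha, e, by rw [huc2 c (hB1 c hc), h1], h2⟩)
    have hle : Submodule.span κ (Set.range D) ≤ W0 := by
      rw [Submodule.span_le]
      rintro _ ⟨j, rfl⟩
      rcases hyZ j with ⟨j', rfl⟩ | hj
      · exact Submodule.subset_span ⟨j', rfl⟩
      · obtain ⟨a, ha, haj⟩ := Finset.mem_image.1 hj
        rw [← dm_ex hy' D j, ← haj]
        exact key a ha
    have hf1 : FiniteDimensional κ W0 := FiniteDimensional.span_of_finite κ (Set.finite_range _)
    exact (Submodule.finrank_mono hle).trans hd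

end

end Pool.Agent.T6.H12.X
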