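import Pool.Agent.T6.H12.Tower
import Pool.Agent.T6.H12.X.LineStep
import Pool.Agent.T6.H12.X.Diff
import Pool.Agent.T6.H12.X.Arr
import Pool.Agent.T6.H12.X.PullStep

/-!
# Towers of Frobenius arrangements and pull-backs of tame maps
-/

set_option autoImplicit false
set_option linter.unusedSectionVars false

universe u

open Polynomial Pool.Agent.TH214.SD Pool.Agent.TH188.VT Pool.Agent.W558 AlgebraicGeometry
  CategoryTheory

namespace Pool.Agent.T6.H12.X

section

variable {k K : Type u} [Field k] [Field K] [Algebra k K] {m : ℕ}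
  {E : Fin m → IntermediateField k K}

/-- The invariants of a tower. -/
structure Inv (E : Fin m → IntermediateField k K) (F : IntermediateField k K) (G : Subgroup Kˣ) :
    Prop where
  le : IntermediateField.adjoin k (⋃ i, (E i : Set K)) ≤ F
  mem : ∀ u ∈ G, (u : K) ∈ F
  gen : F ≤ IntermediateField.adjoin k (Units.val '' (G : Set Kˣ))
  good : ∃ d : ℕ, Good E G d ∧
    Algebra.trdeg (IntermediateField.adjoin k (⋃ i, (E i : Set K))) K =
      (d : Cardinal.{u}) + Algebra.trdeg F K
  const : ∀ u : Kˣ, (∃ c : k, algebraMap k K c = u) → u ∈ G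

lemma trdeg_alg (F : IntermediateField k K) {y : K} (hy : IsAlgebraic F y) :
    Algebra.trdeg F K = Algebra.trdeg (IntermediateField.adjoin F {y}) K := by
  have h1 := trdeg_tower (IntermediateField.adjoin F {y})
  have h2 : Algebra.IsAlgebraic F (IntermediateField.adjoin F {y}) :=
    IntermediateField.isAlgebraic_adjoin fun b hb => by
      rw [Set.mem_singleton_iff.1 hb]
      exact hy.isIntegral
  have h3 : Algebra.trdeg F (IntermediateField.adjoin F {y}) = 0 := trdeg_eq_zero
  rw [h3, zero_add] at h1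
  exact h1.symm

theorem inv_of_tower [IsAlgClosed k] {p : ℕ} [Fact p.Prime] [CharP k p]
    {F : IntermediateField k K} {G : Subgroup Kˣ} (h : IsFrobeniusTower p E F G) : Inv E F G := by
  classical
  induction h with
  | base =>
    refine ⟨le_rfl, ?_, ?_, ⟨0, good_base E, ?_⟩, ?_⟩
    · refine mem_of_closure ?_
      rintro u (⟨c, hc⟩ | ⟨i, hi⟩)
      · rw [← hc]
        exact IntermediateField.algebraMap_mem _ c
      · exact IntermediateField.subset_adjoin k _ (Set.mem_iUnion.2 ⟨i, hi⟩)
    · rw [IntermediateField.adjoin_le_iff]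
      intro b hb
      obtain ⟨i, hi⟩ := Set.mem_iUnion.1 hb
      exact mem_adj fun h0 => ⟨Units.mk0 b h0, Subgroup.subset_closure (Or.inr ⟨i, hi⟩), rfl⟩
    · rw [Nat.cast_zero, zero_add]
    · intro u hu
      exact Subgroup.subset_closure (Or.inl hu)
  | @line F G h i x hx ih =>
    obtain ⟨h1, h2, h3, ⟨d, h4, h5⟩, h6'⟩ := ih
    have hEF : E i ≤ F := fun b hb =>
      h1 (IntermediateField.subset_adjoin k _ (Set.mem_iUnion.2 ⟨i, hb⟩))
    have hle : F ≤ (IntermediateField.adjoin F {x}).restrictScalars k := fun b hb =>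
      (IntermediateField.adjoin F {x}).algebraMap_mem ⟨b, hb⟩
    have hxm : x ∈ (IntermediateField.adjoin F {x}).restrictScalars k :=
      IntermediateField.subset_adjoin F _ rfl
    have hp1 : 1 < p := (Fact.out (p := p.Prime)).one_lt
    refine ⟨h1.trans hle, ?_, ?_, ⟨d + 1, good_line h4 i (transcendental_of_le hEF hx), ?_⟩, ?_⟩
    · intro u hu
      rw [← Subgroup.closure_eq G, ← Subgroup.closure_union] at hu
      refine mem_of_closure ?_ u hu
      rintro v (hv | ⟨P, -, hP⟩)
      · exact hle (h2 v hv)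
      · rw [← hP, aeval_def, eval₂_eq_sum_range]
        exact sum_mem fun j _ => mul_mem (hle (hEF (P.coeff j).2)) (pow_mem hxm j)
    · refine adjoin_le_aux (le_adj_sup _ h3) ?_
      rintro b rfl
      refine mem_adj fun h0 => ⟨Units.mk0 b h0, Subgroup.mem_sup_right
        (Subgroup.subset_closure ⟨X, ?_, ?_⟩), rfl⟩
      · rw [natDegree_X]
        exact hp1
      · rw [aeval_X, Units.val_mk0]
    · have h6 := trdeg_tower (IntermediateField.adjoin F {x})
      rw [trdeg_simple hx] at h6
      rw [h5, ← h6, ← add_assoc]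
      push_cast
      rfl
    · intro u hu
      exact Subgroup.mem_sup_left (h6' u hu)
  | @difference F G h ih =>
    obtain ⟨h1, h2, h3, ⟨d, h4, h5⟩, h6'⟩ := ih
    refine ⟨h1, ?_, le_adj_sup _ h3, ⟨d, good_diff h4, h5⟩, fun u hu =>
      Subgroup.mem_sup_left (h6' u hu)⟩
    intro u hu
    rw [← Subgroup.closure_eq G, ← Subgroup.closure_union, Subgroup.closure_eq] at hu
    refine mem_of_closure ?_ u hu
    rintro v (hv | ⟨N, a, b, c, -, ha, hb, -, hv, -⟩)
    · exact h2 v hv
    · rw [hv]
      exact sub_mem (h2 a ha) (h2 b hb)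
  | @arrangement F G h B B0 hB ih =>
    obtain ⟨h1, h2, h3, ⟨d, h4, h5⟩, h6'⟩ := ih
    have hle : F ≤ (IntermediateField.adjoin F (B : Set K)).restrictScalars k := fun b hb =>
      (IntermediateField.adjoin F (B : Set K)).algebraMap_mem ⟨b, hb⟩
    obtain ⟨D0, hD0⟩ : ∃ D0 : ℕ, Algebra.trdeg F (IntermediateField.adjoin F (B : Set K)) =
        (D0 : Cardinal.{u}) := by
      refine Cardinal.lt_aleph0.1 (lt_of_le_of_lt ?_ (Cardinal.natCast_lt_aleph0
        (n := Module.finrank F (Submodule.span F (B : Set K)))))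
      rw [← hB.complete]
      exact self_le_add_right _ _
    have hDM : D0 + Module.finrank F (Submodule.span F (B0 : Set K)) =
        Module.finrank F (Submodule.span F (B : Set K)) := by
      have h6 := hB.complete
      rw [hD0] at h6
      exact_mod_cast h6
    refine ⟨h1.trans hle, ?_, ?_, ⟨d + D0, good_arr h4 hB hDM, ?_⟩, fun u hu =>
      Subgroup.mem_sup_left (h6' u hu)⟩
    · intro u hu
      rw [← Subgroup.closure_eq G, ← Subgroup.closure_union] at hu
      refine mem_of_closure ?_ u hu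
      rintro v (hv | hv)
      · exact hle (h2 v hv)
      · exact IntermediateField.subset_adjoin F _ hv
    · refine adjoin_le_aux (le_adj_sup _ h3) ?_
      intro b hb
      exact mem_adj fun h0 => ⟨Units.mk0 b h0, Subgroup.mem_sup_right
        (Subgroup.subset_closure hb), rfl⟩
    · have h6 := trdeg_tower (IntermediateField.adjoin F (B : Set K))
      rw [hD0] at h6
      rw [h5, ← h6, ← add_assoc]
      push_cast
      rfl
  | @pullback F G h P Q B hP f y hf hy ih =>
    obtain ⟨h1, h2, h3, ⟨d, h4, h5⟩, h6'⟩ := ih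
    have hle : F ≤ (IntermediateField.adjoin F {y}).restrictScalars k := fun b hb =>
      (IntermediateField.adjoin F {y}).algebraMap_mem ⟨b, hb⟩
    have hym : y ∈ (IntermediateField.adjoin F {y}).restrictScalars k :=
      IntermediateField.subset_adjoin F _ rfl
    obtain ⟨c0, hc0⟩ := hP.nonempty
    have hfF : f ∈ F := by
      obtain ⟨u, hu, h7⟩ := hf c0 hc0
      have h8 : f = algebraMap k K c0 + (u : K) := by rw [← h7]; ring
      rw [h8]
      exact add_mem (F.algebraMap_mem c0) (h2 u hu)
    have halg : IsAlgebraic F y := by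
      refine ⟨P.map (algebraMap k F) - C (⟨f, hfF⟩ : F) * Q.map (algebraMap k F), ?_, ?_⟩
      · intro h0
        have h7 : (P.map (algebraMap k F)).natDegree =
            (C (⟨f, hfF⟩ : F) * Q.map (algebraMap k F)).natDegree := by
          rw [sub_eq_zero.1 h0]
        rw [natDegree_map] at h7
        have h8 := natDegree_C_mul_le (⟨f, hfF⟩ : F) (Q.map (algebraMap k F))
        rw [natDegree_map] at h8
        have h9 := hP.degree.1
        omega
      · rw [map_sub, map_mul, aeval_C, aeval_map_algebraMap, aeval_map_algebraMap, hy]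
        exact sub_self _
    obtain ⟨a0, ha0⟩ : ∃ a : k, (P - C c0 * Q).IsRoot a := by
      refine IsAlgClosed.exists_root _ ?_
      intro h7
      have h8 := natDegree_fib hP.degree.1 c0
      have h9 := natDegree_eq_zero_iff_degree_le_zero.2 h7.le
      have h10 := hP.degree.1
      omega
    refine ⟨h1.trans hle, ?_, ?_, ⟨d, good_pull h4 hP hf hy, ?_⟩, fun u hu =>
      Subgroup.mem_sup_left (h6' u hu)⟩
    · intro u hu
      rw [← Subgroup.closure_eq G, ← Subgroup.closure_union] at hu
      refine mem_of_closure ?_ u hu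
      rintro v (hv | ⟨a, -, hv⟩)
      · exact hle (h2 v hv)
      · rw [hv]
        exact sub_mem hym (hle (F.algebraMap_mem a))
    · refine adjoin_le_aux (le_adj_sup _ h3) ?_
      rintro b rfl
      have h7 : b - algebraMap k K a0 ∈ IntermediateField.adjoin k (Units.val ''
          ((G ⊔ Subgroup.closure {u : Kˣ | ∃ a : k,
            (Q.IsRoot a ∨ ∃ c ∈ B, (P - C c * Q).IsRoot a) ∧ (u : K) = b - algebraMap k K a} :
              Subgroup Kˣ) : Set Kˣ)) :=
        mem_adj fun h0 => ⟨Units.mk0 _ h0, Subgroup.mem_sup_right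
          (Subgroup.subset_closure ⟨a0, Or.inr ⟨c0, hc0, ha0⟩, rfl⟩), rfl⟩
      have h8 := add_mem h7 (IntermediateField.algebraMap_mem _ a0)
      rwa [sub_add_cancel] at h8
    · rw [h5, trdeg_alg F halg]
      rfl

/-- The resolution of the varieties given by towers. -/
theorem tower_main (p : ℕ) [Fact p.Prime] [IsAlgClosed k] [CharP k p]
    (hE : AreIndependentSurfaceFields E) {G : Subgroup Kˣ} (hG : IsFrobeniusTower p E ⊤ G)
    (A : Type u) [CommRing A] [IsDomain A] [Algebra k A] [Algebra.FiniteType k A] [Algebra A K]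
    [IsScalarTower k A K] [IsFractionRing A K] (S : Finset A)
    (hS : ∀ b ∈ S, ∃ u ∈ G, algebraMap A K b = u)
    (hA : ∀ a : A, IsIntegral (Algebra.adjoin k (S : Set A)) a) :
    IsResolvableVariety (X := Spec (CommRingCat.of A))
      (Spec.map (CommRingCat.ofHom (algebraMap k A))) := by
  classical
  obtain ⟨h1, h2, h3, ⟨d, h4, h5⟩, -⟩ := inv_of_tower hG
  -- finitely many generators of `K`
  obtain ⟨S0, hS0⟩ := (inferInstance : Algebra.FiniteType k A).out
  have hgenA : ∀ a : A, algebraMap A K a ∈ IntermediateField.adjoin k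
      ((S0.image (algebraMap A K) : Finset K) : Set K) := by
    intro a
    have h6 : a ∈ Algebra.adjoin k (S0 : Set A) := by
      rw [hS0]
      trivial
    have h7 : (IsScalarTower.toAlgHom k A K) a ∈
        (Algebra.adjoin k (S0 : Set A)).map (IsScalarTower.toAlgHom k A K) := ⟨a, h6, rfl⟩
    rw [AlgHom.map_adjoin] at h7
    refine IntermediateField.algebra_adjoin_le_adjoin k _ (Algebra.adjoin_mono ?_ h7)
    rintro _ ⟨b, hb, rfl⟩
    exact Finset.mem_coe.2 (Finset.mem_image_of_mem _ hb)
  have hgenK : IntermediateField.adjoin k ((S0.image (algebraMap A K) : Finset K) : Set K) =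
      ⊤ := by
    rw [eq_top_iff]
    intro b _
    obtain ⟨a, c, hc, rfl⟩ := IsFractionRing.div_surjective (A := A) b
    exact div_mem (hgenA a) (hgenA c)
  have hfinG : ∀ b : K, ∃ T : Finset Kˣ, (∀ u ∈ T, u ∈ G) ∧
      b ∈ IntermediateField.adjoin k (Units.val '' (T : Set Kˣ)) := by
    intro b
    have h6 : b ∈ IntermediateField.adjoin k (Units.val '' (G : Set Kˣ)) := h3 trivial
    obtain ⟨T0, hT0, hb⟩ := IntermediateField.exists_finset_of_mem_adjoin h6
    have h7 : ∀ c ∈ T0, ∃ u ∈ G, (u : K) = c := fun c hc => hT0 (Finset.mem_coe.2 hc)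
    choose! uu huu1 huu2 using h7
    refine ⟨T0.image uu, ?_, ?_⟩
    · intro u hu
      obtain ⟨c, hc, rfl⟩ := Finset.mem_image.1 hu
      exact huu1 c hc
    · refine IntermediateField.adjoin.mono k _ _ ?_ hb
      intro c hc
      exact ⟨uu c, Finset.mem_coe.2 (Finset.mem_image_of_mem _ hc), huu2 c hc⟩
  choose Tb hTb1 hTb2 using hfinG
  choose! us hus1 hus2 using hS
  obtain ⟨n, y, hy0, hy, hyT, hyB⟩ := h4 ((S.image us) ∪
      (S0.image (algebraMap A K)).biUnion Tb) (by
    intro u hu
    rcases Finset.mem_union.1 hu with h | h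
    · obtain ⟨b, hb, rfl⟩ := Finset.mem_image.1 h
      exact hus1 b hb
    · obtain ⟨b, -, hb⟩ := Finset.mem_biUnion.1 h
      exact hTb1 b u hb)
  have htr : Algebra.trdeg (IntermediateField.adjoin k (⋃ i, (E i : Set K))) K =
      (d : Cardinal.{u}) := by
    have h6 : Algebra.IsAlgebraic (⊤ : IntermediateField k K) K :=
      ⟨fun b => isAlgebraic_algebraMap (⟨b, trivial⟩ : (⊤ : IntermediateField k K))⟩
    have h7 : Algebra.trdeg (⊤ : IntermediateField k K) K = 0 := trdeg_eq_zero
    rw [h5, h7, add_zero]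
  have hperf : PerfectField k := inferInstance
  refine resolvable_of_bound (p := p) (d := d) hE hy0 ?_ htr ?_ A S ?_ hA
  · rw [eq_top_iff, ← hgenK, IntermediateField.adjoin_le_iff]
    intro b hb
    have h6 : IntermediateField.adjoin k (Units.val '' (Tb b : Set Kˣ)) ≤
        IntermediateField.adjoin k (Set.range y ∪ ⋃ i, (E i : Set K)) := by
      rw [IntermediateField.adjoin_le_iff]
      rintro _ ⟨u, hu, rfl⟩
      obtain ⟨a, ⟨c, -, a', ⟨v, hv, rfl⟩, rfl⟩, e, he⟩ := hyT u (Finset.mem_union_right _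
        (Finset.mem_biUnion.2 ⟨b, Finset.mem_coe.1 hb, Finset.mem_coe.1 hu⟩))
      rw [he]
      refine mul_mem (mul_mem (IntermediateField.algebraMap_mem _ c)
        (prod_mem fun i _ => IntermediateField.subset_adjoin k _
        (Or.inr (Set.mem_iUnion.2 ⟨i, (v i).2⟩)))) ?_
      unfold mon
      refine prod_mem fun j _ => ?_
      have h7 : y j ∈ IntermediateField.adjoin k (Set.range y ∪ ⋃ i, (E i : Set K)) :=
        IntermediateField.subset_adjoin k _ (Or.inl ⟨j, rfl⟩)
      exact zpow_mem h7 _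
    exact h6 (hTb2 b)
  · intro Γ κ _ _ _ _ _ σ l z w ζ D hσ h
    exact hyB Γ κ _ σ l z w ζ D hσ h
  · intro b hb
    rw [hus2 b hb]
    obtain ⟨a, ⟨c, hc, a', ⟨v, hv, rfl⟩, rfl⟩, e, he⟩ := hyT _ (Finset.mem_union_left _
      (Finset.mem_image_of_mem us hb))
    refine ⟨c⁻¹, inv_ne_zero hc, v, e, hv, ?_⟩
    rw [he, ← mul_assoc, ← mul_assoc, map_inv₀, inv_mul_cancel₀ ((_root_.map_ne_zero _).2 hc), one_mul]
    rfl

end

end Pool.Agent.T6.H12.X
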