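import Pool.Agent.T6.H12.Compact

/-!
# Compactness, with constants
-/

set_option autoImplicit false

universe u

open Pool.Agent.TH214.SD Filter

namespace Pool.Agent.T6.H12.X

variable {k K : Type u} [Field k] [Field K] [Algebra k K] {n : ℕ}

/-- The values of the constants. -/
def Triv {Γ κ : Type*} [Field κ] (A : Set K) (l : K → Γ) (z : K → κ) (σ : k →+* κ) : Prop :=
  ∀ c : k, c ≠ 0 → ∀ a ∈ A, l (algebraMap k K c * a) = l a ∧
    z (algebraMap k K c * a) = σ c * z a

lemma part_single' {k : Type u} [Field k] {h n : ℕ} {M : Type*} [AddCommGroup M] [Module k M]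
    (l : Fin h ⊕ Fin n → ℤ) (T : (Fin h ⊕ Fin n → ℤ) → M) (μ : ℤ)
    (e : Fin h ⊕ Fin n → ℤ) (c : k) [Decidable (wte l e = μ)] :
    part k l T μ (Finsupp.single e c) = if wte l e = μ then c • T e else 0 := by
  unfold part
  rw [Finsupp.linearCombination_single]
  by_cases h : wte l e = μ
  · rw [if_pos h, if_pos h]
  · rw [if_neg h, if_neg h, smul_zero]

lemma supp_list' {Q X R : Type*} [Semiring R] (L : List Q) (f : Q → X) (g : Q → R) {e : X}
    (he : e ∈ ((L.map fun q => Finsupp.single (f q) (g q)).sum).support) :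
    ∃ q ∈ L, e = f q := by
  classical
  induction L with
  | nil => simp at he
  | cons a L ih =>
    rw [List.map_cons, List.sum_cons] at he
    rcases Finset.mem_union.1 (Finsupp.support_add he) with h | h
    · refine ⟨a, List.mem_cons_self, ?_⟩
      exact Finset.mem_singleton.1 (Finsupp.support_single_subset h)
    · obtain ⟨q, hq, h1⟩ := ih h
      exact ⟨q, List.mem_cons_of_mem _ hq, h1⟩

/-- Representatives modulo constants. -/
lemma exists_rep (A A0 : Set K)
    (h0 : ∀ a ∈ A, ∃ c : k, c ≠ 0 ∧ ∃ a0 ∈ A0, a = algebraMap k K c * a0)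
    (hA0 : ∀ a ∈ A0, a ≠ 0) (hAk : ∀ c : k, c ≠ 0 → ∀ a ∈ A, algebraMap k K c * a ∈ A) :
    ∃ (r : K → K) (c : K → k), (∀ a ∈ A, c a ≠ 0 ∧ r a ∈ A0 ∧ a = algebraMap k K (c a) * r a) ∧
      ∀ b : k, b ≠ 0 → ∀ a ∈ A, r (algebraMap k K b * a) = r a ∧
        c (algebraMap k K b * a) = b * c a := by
  classical
  let Sa : K → Set K := fun a => {a0 | a0 ∈ A0 ∧ ∃ c : k, c ≠ 0 ∧ a = algebraMap k K c * a0}
  have hSa : ∀ b : k, b ≠ 0 → ∀ a, Sa (algebraMap k K b * a) = Sa a := by
    intro b hb a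
    have hb' : algebraMap k K b ≠ 0 := (map_ne_zero _).2 hb
    ext a0
    constructor
    · rintro ⟨h1, c, hc, h2⟩
      refine ⟨h1, b⁻¹ * c, mul_ne_zero (inv_ne_zero hb) hc, ?_⟩
      rw [map_mul, mul_assoc, ← h2, map_inv₀, inv_mul_cancel_left₀ hb']
    · rintro ⟨h1, c, hc, h2⟩
      exact ⟨h1, b * c, mul_ne_zero hb hc, by rw [h2, map_mul, mul_assoc]⟩
  let r : K → K := fun a => if h : (Sa a).Nonempty then h.choose else 0
  have hr' : ∀ b : k, b ≠ 0 → ∀ a, r (algebraMap k K b * a) = r a := by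
    intro b hb a
    change (if h : (Sa (algebraMap k K b * a)).Nonempty then h.choose else 0) =
      if h : (Sa a).Nonempty then h.choose else 0
    rw [hSa b hb a]
  have hr : ∀ a ∈ A, r a ∈ Sa a := by
    intro a ha
    obtain ⟨c, hc, a0, ha0, h1⟩ := h0 a ha
    have h2 : (Sa a).Nonempty := ⟨a0, ha0, c, hc, h1⟩
    have h3 : r a = h2.choose := dif_pos h2
    rw [h3]
    exact h2.choose_spec
  have hc : ∀ a : K, ∃ c : k, a ∈ A → c ≠ 0 ∧ a = algebraMap k K c * r a := by
    intro a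
    by_cases ha : a ∈ A
    · obtain ⟨-, c, h1, h2⟩ := hr a ha
      exact ⟨c, fun _ => ⟨h1, h2⟩⟩
    · exact ⟨0, fun h => absurd h ha⟩
  choose c hc using hc
  refine ⟨r, c, fun a ha => ⟨(hc a ha).1, (hr a ha).1, (hc a ha).2⟩, fun b hb a ha =>
    ⟨hr' b hb a, ?_⟩⟩
  have h1 := (hc _ (hAk b hb a ha)).2
  rw [hr' b hb a] at h1
  nth_rw 1 [(hc a ha).2] at h1
  rw [← mul_assoc, ← map_mul] at h1
  have h2 := mul_right_cancel₀ (hA0 _ (hr a ha).1) h1
  exact ((algebraMap k K).injective h2).symm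

/-- The failure of the schön condition for finitely many relations. -/
theorem level {c d : ℕ} (hcd : c + d = n) (A A0 : Set K) (hA0 : ∀ a ∈ A0, a ≠ 0)
    (hAm : ∀ a ∈ A, ∀ b ∈ A, a * b ∈ A)
    (hAk : ∀ c : k, c ≠ 0 → ∀ a ∈ A, algebraMap k K c * a ∈ A)
    (h0 : ∀ a ∈ A, ∃ c : k, c ≠ 0 ∧ ∃ a0 ∈ A0, a = algebraMap k K c * a0) (y : Fin n → K)
    (hcon : ∀ (h : ℕ) (u : Fin h → K) (q : ℕ) (G : Fin q → (Fin h ⊕ Fin n → ℤ) →₀ k),
      (∀ b, u b ∈ A0) → (∀ i, value (G i) u y = 0) → ¬ SchonEquations G c)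
    (S : Finset (Item A y)) :
    ∃ (l : K → ℤ) (z : K → AlgebraicClosure k) (w : Fin n → ℤ) (ζ : Fin n → AlgebraicClosure k)
      (D : Fin n → Fin (d + 1) → AlgebraicClosure k)
      (R : Fin (d + 1) → Fin n → AlgebraicClosure k), (∀ a ∈ A, z a ≠ 0) ∧ (∀ j, ζ j ≠ 0) ∧
      (∀ a, ∑ j, R a j • D j = Pi.single a 1) ∧
      Triv A l z (algebraMap k (AlgebraicClosure k)) ∧ ∀ r ∈ S, Sat l z w ζ D r := by
  classical
  obtain ⟨rr, cc, hrc, hrk⟩ := exists_rep A A0 h0 hA0 hAk
  let T : Finset K := (S.biUnion vars).image rr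
  have hTv : ∀ a ∈ S.biUnion vars, a ∈ A := by
    intro a ha
    obtain ⟨r, -, hr⟩ := Finset.mem_biUnion.1 ha
    rcases r with L | q
    · obtain ⟨q, hq, rfl⟩ := List.mem_map.1 (List.mem_toFinset.1 hr)
      exact L.2.1 q hq
    · change a ∈ ({q.1.1, q.1.2, q.1.1 * q.1.2} : Finset K) at hr
      simp only [Finset.mem_insert, Finset.mem_singleton] at hr
      rcases hr with rfl | rfl | rfl
      · exact q.2.1
      · exact q.2.2
      · exact hAm _ q.2.1 _ q.2.2
  have hTA : ∀ a ∈ T, a ∈ A0 := by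
    intro a ha
    obtain ⟨b, hb, rfl⟩ := Finset.mem_image.1 ha
    exact (hrc b (hTv b hb)).2.1
  let ε : Fin T.card ≃ T := T.equivFin.symm
  let u : Fin T.card → K := fun b => (ε b : K)
  let δ : K → Fin T.card → ℤ := fun a b => if (ε b : K) = a then 1 else 0
  have hδ : ∀ {G : Type u} [CommGroupWithZero G] (v : Fin T.card → G) (b0 : Fin T.card),
      ∏ b, v b ^ δ (u b0) b = v b0 := by
    intro G _ v b0
    rw [Finset.prod_eq_single b0]
    · have h1 : δ (u b0) b0 = 1 := if_pos rfl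
      rw [h1, zpow_one]
    · intro b _ hb
      have h1 : δ (u b0) b = 0 := if_neg fun h => hb (ε.injective (Subtype.ext h))
      rw [h1, zpow_zero]
    · intro h; exact absurd (Finset.mem_univ _) h
  have hu : ∀ a ∈ T, ∃ b, u b = a := fun a ha => ⟨ε.symm ⟨a, ha⟩, by simp [u]⟩
  let GI : Item A y → (Fin T.card ⊕ Fin n → ℤ) →₀ k := fun r =>
    match r with
    | Sum.inl L => (L.1.map fun q => Finsupp.single (Sum.elim (δ (rr q.1)) q.2) (cc q.1)).sum
    | Sum.inr q => Finsupp.single (Sum.elim (δ (rr q.1.1) + δ (rr q.1.2)) 0)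
        (cc q.1.1 * cc q.1.2) -
        Finsupp.single (Sum.elim (δ (rr (q.1.1 * q.1.2))) 0) (cc (q.1.1 * q.1.2))
  let τ : Fin S.card ≃ S := S.equivFin.symm
  have hval : ∀ r ∈ S, value (GI r) u y = 0 := by
    intro r hr
    have hsub : ∀ a ∈ vars r, rr a ∈ T := fun a ha =>
      Finset.mem_image_of_mem _ (Finset.mem_biUnion.2 ⟨r, hr, ha⟩)
    have hprod : ∀ a ∈ T, ∏ b, u b ^ δ a b = a := by
      intro a ha
      obtain ⟨b, rfl⟩ := hu a ha
      exact hδ u b
    rw [value_eq]
    rcases r with L | q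
    · change Finsupp.linearCombination k _
        (L.1.map fun q => Finsupp.single (Sum.elim (δ (rr q.1)) q.2) (cc q.1)).sum = 0
      rw [map_list_sum, List.map_map]
      refine Eq.trans ?_ L.2.2
      refine congrArg List.sum (List.map_congr_left fun q hq => ?_)
      rw [Function.comp_apply, Finsupp.linearCombination_single, Fintype.prod_sum_type]
      simp only [Sum.elim_inl, Sum.elim_inr]
      rw [hprod (rr q.1) (hsub _ (List.mem_toFinset.2 (List.mem_map_of_mem hq))),
        Algebra.smul_def, ← mul_assoc, ← (hrc q.1 (L.2.1 q hq)).2.2]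
      rfl
    · change Finsupp.linearCombination k _
        (Finsupp.single (Sum.elim (δ (rr q.1.1) + δ (rr q.1.2)) 0) (cc q.1.1 * cc q.1.2) -
        Finsupp.single (Sum.elim (δ (rr (q.1.1 * q.1.2))) 0) (cc (q.1.1 * q.1.2))) = 0
      have h1 : rr q.1.1 ∈ T := hsub _ (by
        change _ ∈ ({q.1.1, q.1.2, q.1.1 * q.1.2} : Finset K); simp)
      have h2 : rr q.1.2 ∈ T := hsub _ (by
        change _ ∈ ({q.1.1, q.1.2, q.1.1 * q.1.2} : Finset K); simp)
      have h3 : rr (q.1.1 * q.1.2) ∈ T := hsub _ (by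
        change _ ∈ ({q.1.1, q.1.2, q.1.1 * q.1.2} : Finset K); simp)
      rw [map_sub, Finsupp.linearCombination_single, Finsupp.linearCombination_single,
        Fintype.prod_sum_type, Fintype.prod_sum_type]
      simp only [Sum.elim_inl, Sum.elim_inr, Pi.zero_apply, zpow_zero, Finset.prod_const_one,
        mul_one, Pi.add_apply]
      have hu0 : ∀ b, u b ≠ 0 := fun b => hA0 _ (hTA _ (ε b).2)
      have h4 : ∏ b, u b ^ (δ (rr q.1.1) b + δ (rr q.1.2) b) = rr q.1.1 * rr q.1.2 := by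
        rw [← hprod _ h1, ← hprod _ h2]
        conv_rhs => rw [← Finset.prod_mul_distrib]
        rw [hprod _ h1, hprod _ h2]
        exact Finset.prod_congr rfl fun b _ => zpow_add₀ (hu0 b) _ _
      rw [h4, hprod _ h3, Algebra.smul_def, Algebra.smul_def,
        ← (hrc _ (hAm _ q.2.1 _ q.2.2)).2.2, map_mul]
      have h5 := (hrc _ q.2.1).2.2
      have h6 := (hrc _ q.2.2).2.2
      nth_rw 3 [h5]
      nth_rw 3 [h6]
      ring
  have hneg := hcon T.card u S.card (fun i => GI (τ i)) (fun b => hTA _ (ε b).2)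
    (fun i => hval _ (τ i).2)
  unfold SchonEquations at hneg
  push Not at hneg
  obtain ⟨l', z', hz', hv, hrk'⟩ := hneg
  obtain ⟨D, R, hD, hR⟩ := exists_orth hcd _ hrk'
  let l0 : K → ℤ := fun a => ∑ b, l' (Sum.inl b) * δ a b
  let z0 : K → AlgebraicClosure k := fun a => ∏ b, z' (Sum.inl b) ^ δ a b
  have hz0 : ∀ a, z0 a ≠ 0 := fun a =>
    Finset.prod_ne_zero_iff.2 fun b _ => zpow_ne_zero _ (hz' _)
  let l : K → ℤ := fun a => l0 (rr a)
  let z : K → AlgebraicClosure k := fun a => algebraMap k (AlgebraicClosure k) (cc a) * z0 (rr a)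
  let w : Fin n → ℤ := fun j => l' (Sum.inr j)
  let ζ : Fin n → AlgebraicClosure k := fun j => z' (Sum.inr j)
  have hwt : ∀ (a : K) (e : Fin n → ℤ), wte l' (Sum.elim (δ (rr a)) e) = l a + dm w e := by
    intro a e
    unfold wte
    rw [Fintype.sum_sum_type]
    simp only [Sum.elim_inl, Sum.elim_inr]
    congr 1
    exact Finset.sum_congr rfl fun j _ => by rw [smul_eq_mul, mul_comm]
  have hzt : ∀ (a : K) (e : Fin n → ℤ), algebraMap k (AlgebraicClosure k) (cc a) *
      ∏ j, z' j ^ (Sum.elim (δ (rr a)) e : Fin T.card ⊕ Fin n → ℤ) j = z a * mon ζ e := by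
    intro a e
    rw [Fintype.prod_sum_type, ← mul_assoc]
    rfl
  have hzA : ∀ a ∈ A, z a ≠ 0 := fun a ha =>
    mul_ne_zero ((map_ne_zero _).2 (hrc a ha).1) (hz0 _)
  refine ⟨l, z, w, ζ, D, R, hzA, ?_, hR, ?_, ?_⟩
  · intro j
    exact hz' _
  · intro c hc a ha
    obtain ⟨h1, h2⟩ := hrk c hc a ha
    constructor
    · change l0 (rr (algebraMap k K c * a)) = l0 (rr a)
      rw [h1]
    · change algebraMap k (AlgebraicClosure k) (cc (algebraMap k K c * a)) *
        z0 (rr (algebraMap k K c * a)) = algebraMap k (AlgebraicClosure k) c *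
          (algebraMap k (AlgebraicClosure k) (cc a) * z0 (rr a))
      rw [h1, h2, map_mul, mul_assoc]
  · intro r hr
    have hi : GI (τ (τ.symm ⟨r, hr⟩)) = GI r := by rw [Equiv.apply_symm_apply]
    have hv1 : initialValue (GI r) l' z' = 0 := by
      rw [← hi]
      exact hv (τ.symm ⟨r, hr⟩)
    have hv2 : ∑ j, initialGradient (GI r) l' z' j • D j = 0 := by
      rw [← hi]
      exact hD _ (Submodule.subset_span ⟨τ.symm ⟨r, hr⟩, rfl⟩)
    rcases r with L | q
    · intro μ hμ
      have hsupp : ∀ e ∈ (GI (Sum.inl L)).support, μ ≤ wte l' e := by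
        intro e he
        obtain ⟨q, hq, rfl⟩ := supp_list' L.1 (fun q => Sum.elim (δ (rr q.1)) q.2)
          (fun q => cc q.1) he
        rw [hwt]
        exact hμ q hq
      have h1 := part_value l' z' _ hv1 μ hsupp
      have h2 := part_gradient l' z' D _ hv2 μ hsupp
      change part k _ _ _ (L.1.map fun q =>
        Finsupp.single (Sum.elim (δ (rr q.1)) q.2) (cc q.1)).sum = 0 at h1 h2
      rw [map_list_sum, List.map_map] at h1 h2
      constructor
      · refine Eq.trans ?_ h1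
        refine congrArg List.sum (List.map_congr_left fun q hq => ?_)
        rw [Function.comp_apply, part_single', Algebra.smul_def, hzt, hwt]
      · refine Eq.trans ?_ h2
        refine congrArg List.sum (List.map_congr_left fun q hq => ?_)
        rw [Function.comp_apply, part_single', ← algebraMap_smul (AlgebraicClosure k) (cc q.1),
          smul_smul, hzt, hwt]
        rfl
    · change initialValue (Finsupp.single (Sum.elim (δ (rr q.1.1) + δ (rr q.1.2)) 0)
        (cc q.1.1 * cc q.1.2) -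
        Finsupp.single (Sum.elim (δ (rr (q.1.1 * q.1.2))) 0) (cc (q.1.1 * q.1.2))) l' z' = 0
        at hv1
      have hw1 : wte l' (Sum.elim (δ (rr q.1.1) + δ (rr q.1.2)) 0) = l q.1.1 + l q.1.2 := by
        unfold wte
        rw [Fintype.sum_sum_type]
        simp only [Sum.elim_inl, Sum.elim_inr, Pi.zero_apply, mul_zero, Finset.sum_const_zero,
          add_zero, Pi.add_apply, mul_add]
        rw [Finset.sum_add_distrib]
      have hw2 : wte l' (Sum.elim (δ (rr (q.1.1 * q.1.2))) 0) = l (q.1.1 * q.1.2) := by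
        rw [hwt, dm_zero, add_zero]
      have hz1 : (cc q.1.1 * cc q.1.2) •
          ∏ j, z' j ^ (Sum.elim (δ (rr q.1.1) + δ (rr q.1.2)) 0 : Fin T.card ⊕ Fin n → ℤ) j =
          z q.1.1 * z q.1.2 := by
        rw [Fintype.prod_sum_type]
        simp only [Sum.elim_inl, Sum.elim_inr, Pi.zero_apply, zpow_zero, Finset.prod_const_one,
          mul_one, Pi.add_apply]
        have h1 : ∏ b, z' (Sum.inl b) ^ (δ (rr q.1.1) b + δ (rr q.1.2) b) =
            z0 (rr q.1.1) * z0 (rr q.1.2) := by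
          change _ = (∏ b, z' (Sum.inl b) ^ δ (rr q.1.1) b) * ∏ b, z' (Sum.inl b) ^ δ (rr q.1.2) b
          rw [← Finset.prod_mul_distrib]
          exact Finset.prod_congr rfl fun b _ => zpow_add₀ (hz' _) _ _
        rw [h1, Algebra.smul_def, map_mul]
        change _ = algebraMap k (AlgebraicClosure k) (cc q.1.1) * z0 (rr q.1.1) *
          (algebraMap k (AlgebraicClosure k) (cc q.1.2) * z0 (rr q.1.2))
        ring
      have hz2 : (cc (q.1.1 * q.1.2)) •
          ∏ j, z' j ^ (Sum.elim (δ (rr (q.1.1 * q.1.2))) 0 : Fin T.card ⊕ Fin n → ℤ) j =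
          z (q.1.1 * q.1.2) := by
        rw [Algebra.smul_def, hzt, mon_zero, mul_one]
      have hz10 : z q.1.1 * z q.1.2 ≠ 0 := mul_ne_zero (hzA _ q.2.1) (hzA _ q.2.2)
      have hz20 : z (q.1.1 * q.1.2) ≠ 0 := hzA _ (hAm _ q.2.1 _ q.2.2)
      have key : ∀ μ, μ ≤ l q.1.1 + l q.1.2 → μ ≤ l (q.1.1 * q.1.2) →
          (if l q.1.1 + l q.1.2 = μ then z q.1.1 * z q.1.2 else 0) =
            if l (q.1.1 * q.1.2) = μ then z (q.1.1 * q.1.2) else 0 := by
        intro μ h1 h2
        have h3 := part_value l' z' _ hv1 μ (by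
          intro e he
          rcases Finset.mem_union.1 (Finsupp.support_sub he) with h | h
          · rw [Finset.mem_singleton.1 (Finsupp.support_single_subset h), hw1]
            exact h1
          · rw [Finset.mem_singleton.1 (Finsupp.support_single_subset h), hw2]
            exact h2)
        rw [map_sub, part_single', part_single', hw1, hw2, hz1, hz2] at h3
        exact sub_eq_zero.1 h3
      have hl : l (q.1.1 * q.1.2) = l q.1.1 + l q.1.2 := by
        rcases lt_trichotomy (l (q.1.1 * q.1.2)) (l q.1.1 + l q.1.2) with h | h | h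
        · have h1 := key _ h.le le_rfl
          rw [if_neg h.ne', if_pos rfl] at h1
          exact absurd h1.symm hz20
        · exact h
        · have h1 := key _ le_rfl h.le
          rw [if_pos rfl, if_neg h.ne'] at h1
          exact absurd h1 hz10
      refine ⟨hl, ?_⟩
      have h1 := key _ le_rfl hl.ge
      rw [if_pos rfl, if_pos hl] at h1
      exact h1.symm

end Pool.Agent.T6.H12.X
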