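import Pool.Agent.T6.H12.Circ
import Pool.Agent.T6.H12.X.Good

/-!
# Adding a tame system
-/

set_option autoImplicit false
set_option linter.unusedSectionVars false

universe u

open Polynomial Pool.Agent.TH214.SD Pool.Agent.W558

namespace Pool.Agent.T6.H12.X

section

variable {k K : Type u} [Field k] [Field K] [Algebra k K] {m : ℕ}
  {E : Fin m → IntermediateField k K}

/-- Adding a tame system. -/
theorem good_system {p : ℕ} [Fact p.Prime] [CharP k p] {F : IntermediateField k K}
    {G : Subgroup Kˣ} {d : ℕ} (hG : Good E G d) {nn r : ℕ} {B : Fin nn → Set K} {f : Fin r → K}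
    (hS : IsTameSystem p F G B f) {D0 : ℕ} (hD0 : D0 + Nat.card {j // f j = 0} =
      ∑ s, Module.finrank F (Submodule.span F (B s))) :
    Good E (G ⊔ Subgroup.closure {u | (∃ s, (u : K) ∈ B s) ∨ ∃ l, f l = u}) (d + D0) := by
  classical
  intro T' hT'
  rw [← Subgroup.closure_eq G, ← Subgroup.closure_union] at hT'
  obtain ⟨T1, hT1, hT1'⟩ := exists_finset_closure' _ T' hT'
  obtain ⟨deg, q, t, δ, ht, hf, hdeg, hind⟩ := hS.equations
  have hTt : ∀ (j : Fin r) (i : Fin (q j + 1)),
      ∃ TT : Finset (Kˣ × Multiplicative (Fin nn → ZMod p)),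
      (TT : Set (Kˣ × Multiplicative (Fin nn → ZMod p))) ⊆
        {a : Kˣ × Multiplicative (Fin nn → ZMod p) | (a.1 ∈ G ∧ a.2 = 1) ∨
        (∃ s, (a.1 : K) ∈ B s ∧ a.2 = Multiplicative.ofAdd (Pi.single s 1)) ∨
        ∃ l, l < j ∧ f l = a.1 ∧ a.2 = Multiplicative.ofAdd (deg l)} ∧
      (t j i, Multiplicative.ofAdd (δ j i)) ∈ Subgroup.closure (TT : Set _) := fun j i =>
    exists_finset_closure _ (ht j i)
  choose Tt hTt1 hTt2 using hTt
  let TF : Finset Kˣ := T1 ∪ Finset.univ.biUnion fun j : Fin r =>
    Finset.univ.biUnion fun i : Fin (q j + 1) => (Tt j i).image Prod.fst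
  have hTF : ∀ j i, ∀ a ∈ Tt j i, a.1 ∈ TF := fun j i a ha =>
    Finset.mem_union_right _ (Finset.mem_biUnion.2 ⟨j, Finset.mem_univ _,
      Finset.mem_biUnion.2 ⟨i, Finset.mem_univ _, Finset.mem_image_of_mem _ ha⟩⟩)
  let Bf : Fin nn → Finset K := fun s => (TF.image Units.val).filter fun b => b ∈ B s
  have hBfB : ∀ s, ((Bf s : Finset K) : Set K) ⊆ B s := fun s b hb =>
    (Finset.mem_filter.1 (Finset.mem_coe.1 hb)).2
  have hBf : ∀ s, ∀ u ∈ TF, (u : K) ∈ B s → (u : K) ∈ Bf s := fun s u hu hb =>
    Finset.mem_filter.2 ⟨Finset.mem_image_of_mem _ hu, hb⟩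
  choose TG hTG1 hTG2 using fun s => exists_circuits F G (hS.unimodular s) (Bf s) (hBfB s)
  obtain ⟨n, y, hy0, hy, hyT, hyB⟩ := hG ((TF.filter fun u => u ∈ G) ∪
      Finset.univ.biUnion TG) (by
    intro u hu
    rcases Finset.mem_union.1 hu with h | h
    · exact (Finset.mem_filter.1 h).2
    · obtain ⟨s, -, hs⟩ := Finset.mem_biUnion.1 h
      exact hTG1 s u hs)
  obtain ⟨n', y', φ, hy', hy'0, hφ, hφy, hZ, hyZ⟩ := exists_ext hy hy0
    ((Finset.univ.biUnion Bf) ∪ (Finset.univ.image f).filter fun b => b ≠ 0) (by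
    intro b hb
    rcases Finset.mem_union.1 hb with h | h
    · obtain ⟨s, -, hs⟩ := Finset.mem_biUnion.1 h
      rintro rfl
      exact hS.nonzero s (hBfB s (Finset.mem_coe.2 hs))
    · exact (Finset.mem_filter.1 h).2)
  have hyr1 : ∀ s, ∀ b ∈ Bf s, b ∈ Set.range y' := fun s b hb =>
    hZ b (Finset.mem_union_left _ (Finset.mem_biUnion.2 ⟨s, Finset.mem_univ _, hb⟩))
  have hyr2 : ∀ j, f j ≠ 0 → f j ∈ Set.range y' := fun j hj =>
    hZ _ (Finset.mem_union_right _ (Finset.mem_filter.2
      ⟨Finset.mem_image_of_mem _ (Finset.mem_univ _), hj⟩))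
  refine ⟨n', y', hy'0, hy', ?_, ?_⟩
  · intro u hu
    refine (Subgroup.closure_le _).2 ?_ (hT1' u hu)
    intro v hv
    rcases hT1 hv with hvG | ⟨s, hs⟩ | ⟨l, hl⟩
    · exact monoGrp_mono φ hφ hφy (hyT v (Finset.mem_union_left _
        (Finset.mem_filter.2 ⟨Finset.mem_union_left _ hv, hvG⟩)))
    · exact mem_monoGrp_of_range (hyr1 s v (hBf s v (Finset.mem_union_left _ hv) hs))
    · refine mem_monoGrp_of_range ?_
      rw [← hl]
      exact hyr2 l (by rw [hl]; exact v.ne_zero)
  · intro Γ κ W _ _ _ _ _ _ _ σ l z w ζ D hσ h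
    have hr := h.restrict φ hφ
    rw [hφy] at hr
    have hd := hyB Γ κ W σ l z _ _ _ hσ hr
    let W0 : Submodule κ W := Submodule.span κ (Set.range (D ∘ φ))
    obtain ⟨wv, hwv⟩ := exists_span_fin (D ∘ φ) hd
    have hcκ : CharP κ p := by
      have hcK : CharP K p := charP_of_injective_algebraMap (algebraMap k K).injective p
      exact (CharP.charP_iff_prime_eq_zero Fact.out).2 (h.char prk_one p)
    -- the elements of `G`
    have hGr : ∀ u : Kˣ, u ∈ monoGrp E y hy0 → ∃ a ∈ PrK E, ∃ e : Fin n' → ℤ,
        (u : K) = a * mon y' e ∧ dm D e ∈ W0 := by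
      rintro u ⟨a, ha, e, hu⟩
      refine ⟨a, ha, Function.extend φ e 0, ?_, ?_⟩
      · rw [mon_ext hφ, hφy, hu]
      · rw [dm_ext hφ]
        refine Submodule.sum_mem _ fun j _ => ?_
        have h1 : (D ∘ φ) j ∈ W0 := Submodule.subset_span ⟨j, rfl⟩
        exact zsmul_mem h1 _
    let DD : K → W := fun b => dm D (ex y' b)
    have hblk : ∀ s, ∃ δ : Fin (Module.finrank F (Submodule.span F (B s))) → W, ∀ b ∈ Bf s,
        ∃ γ : Fin (Module.finrank F (Submodule.span F (B s))) → κ, ∑ c, γ c = 1 ∧
          dm D (ex y' b) - ∑ c, γ c • δ c ∈ W0 := by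
      intro s
      have hfin := hS.finite s
      refine mono_block h hy' hy'0 F W0 (Bf s) (hyr1 s) ?_
        (Submodule.finrank_mono (Submodule.span_mono (hBfB s)))
      intro T hT hdep
      obtain ⟨g, hg1, hg2, hg3⟩ := hTG2 s T hT hdep
      refine ⟨g, hg1, fun b hb hb' => ?_, hg3⟩
      obtain ⟨u, hu, h1⟩ := hg2 b hb hb'
      obtain ⟨a, ha, e, h2, h3⟩ := hGr u (hyT u (Finset.mem_union_right _
        (Finset.mem_biUnion.2 ⟨s, Finset.mem_univ _, hu⟩)))
      exact ⟨a, ha, e, by rw [← h1, h2], h3⟩
    choose δδ0 hδδ0 using hblk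
    let co : ZMod p →+* κ := ZMod.castHom (dvd_refl p) κ
    choose b hb using fun a => exists_dual' hind fun a' => if a = a' then (1 : ZMod p) else 0
    let Gen : Type := Fin d ⊕ ((s : Fin nn) × Fin (Module.finrank F (Submodule.span F (B s))))
    let Φ0 : Gen → W := Sum.elim wv fun a => δδ0 a.1 a.2
    let BB : ((j : Fin r) × {i : Fin (q j + 1) // i ≠ 0}) → Gen → κ := fun a =>
      Sum.elim 0 fun a' => co (b a a'.1)
    let δδ : ((j : Fin r) × {i : Fin (q j + 1) // i ≠ 0}) → Fin r → κ := fun a l =>
      ∑ s, co (deg l s) * co (b a s)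
    -- the representation of the terms
    have hterm : ∀ (j : Fin r) (u : Kˣ × Multiplicative (Fin nn → ZMod p)),
        (∃ i, u ∈ Subgroup.closure (Tt j i : Set _)) →
        ∃ a ∈ PrK E, ∃ cE : Fin n' → ℤ, (u.1 : K) = a * mon y' cE ∧
          ∃ (cg : Gen → κ) (ce : Fin r → κ), (∀ l, ce l ≠ 0 → l < j ∧ f l ≠ 0) ∧
          dm D cE = ∑ g, cg g • Φ0 g + ∑ l, ce l • DD (f l) ∧
          ∀ x, ∑ g, cg g * BB x g + ∑ l, ce l * δδ x l =
            ∑ s, co (Multiplicative.toAdd u.2 s) * co (b x s) := by
      rintro j u ⟨i, hu⟩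
      induction hu using Subgroup.closure_induction with
      | mem v hv =>
        have hvF := hTF j i v (Finset.mem_coe.1 hv)
        rcases hTt1 j i hv with ⟨h1, h2⟩ | ⟨s, h1, h2⟩ | ⟨l', hl', h1, h2⟩
        · obtain ⟨a, ha, e, h3, h4⟩ := hGr v.1 (hyT v.1 (Finset.mem_union_left _
            (Finset.mem_filter.2 ⟨hvF, h1⟩)))
          obtain ⟨c, hc⟩ := hwv _ h4
          refine ⟨a, ha, e, h3, Sum.elim c 0, 0, fun l h0 => absurd rfl h0, ?_, ?_⟩
          · rw [hc, Fintype.sum_sum_type]
            simp [Φ0]
          · intro x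
            rw [Fintype.sum_sum_type, h2]
            simp [BB]
        · obtain ⟨γ, hγ1, hγ2⟩ := hδδ0 s v.1 (hBf s v.1 hvF h1)
          obtain ⟨c, hc⟩ := hwv _ hγ2
          refine ⟨1, prk_one, ex y' (v.1 : K), ?_, Sum.elim c fun a =>
            if h : a.1 = s then γ (h ▸ a.2) else 0, 0, fun l h0 => absurd rfl h0, ?_, ?_⟩
          · rw [one_mul, mon_ex hy' (hyr1 s _ (hBf s v.1 hvF h1))]
          · have h3 : ∑ g, Sum.elim c (fun a : (s : Fin nn) ×
                Fin (Module.finrank F (Submodule.span F (B s))) =>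
                if h : a.1 = s then γ (h ▸ a.2) else 0) g • Φ0 g =
                ∑ a, c a • wv a + ∑ a, γ a • δδ0 s a := by
              rw [Fintype.sum_sum_type]
              congr 1
              rw [Fintype.sum_sigma, Finset.sum_eq_single s]
              · refine Finset.sum_congr rfl fun a _ => ?_
                simp [Φ0]
              · intro s' _ hs'
                refine Finset.sum_eq_zero fun a _ => ?_
                simp [hs']
              · intro h0; exact absurd (Finset.mem_univ _) h0
            rw [h3, ← hc]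
            simp
          · intro x
            have h3 : ∑ g, Sum.elim c (fun a : (s : Fin nn) ×
                Fin (Module.finrank F (Submodule.span F (B s))) =>
                if h : a.1 = s then γ (h ▸ a.2) else 0) g * BB x g = co (b x s) := by
              rw [Fintype.sum_sum_type, Fintype.sum_sigma, Finset.sum_eq_single s
                (f := fun s' => ∑ a, _)]
              · simp [BB, ← Finset.sum_mul, hγ1]
              · intro s' _ hs'
                refine Finset.sum_eq_zero fun a _ => ?_
                simp [hs']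
              · intro h0; exact absurd (Finset.mem_univ _) h0
            rw [h3, h2, Finset.sum_eq_single s]
            · simp
            · intro s' _ hs'
              simp [hs']
            · intro h0; exact absurd (Finset.mem_univ _) h0
        · have hl0 : f l' ≠ 0 := by rw [h1]; exact v.1.ne_zero
          refine ⟨1, prk_one, ex y' (v.1 : K), ?_, 0, Pi.single l' 1, ?_, ?_, ?_⟩
          · rw [one_mul, mon_ex hy']
            rw [← h1]
            exact hyr2 l' hl0
          · intro l h0
            by_cases hl : l = l'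
            · rw [hl]
              exact ⟨hl', hl0⟩
            · rw [Pi.single_eq_of_ne hl] at h0
              exact absurd rfl h0
          · rw [Finset.sum_eq_single l' (f := fun l => (Pi.single l' (1 : κ) : Fin r → κ) l •
              DD (f l))]
            · rw [Pi.single_eq_same, one_smul, h1]
              simp [DD]
            · intro l _ hl
              rw [Pi.single_eq_of_ne hl, zero_smul]
            · intro h0; exact absurd (Finset.mem_univ _) h0
          · intro x
            rw [Finset.sum_eq_single l' (f := fun l => (Pi.single l' (1 : κ) : Fin r → κ) l *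
              δδ x l)]
            · rw [Pi.single_eq_same, one_mul, h2]
              simp [δδ]
            · intro l _ hl
              rw [Pi.single_eq_of_ne hl, zero_mul]
            · intro h0; exact absurd (Finset.mem_univ _) h0
      | one =>
        refine ⟨1, prk_one, 0, by rw [mon_zero, mul_one]; rfl, 0, 0, fun l h0 => absurd rfl h0,
          ?_, ?_⟩
        · rw [dm_zero]
          simp
        · intro x
          simp
      | mul u v _ _ hu hv =>
        obtain ⟨a, ha, e1, h1, cg1, ce1, h2, h3, h4⟩ := hu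
        obtain ⟨a', ha', e2, h5, cg2, ce2, h6, h7, h8⟩ := hv
        refine ⟨a * a', prk_mul ha ha', e1 + e2, ?_, cg1 + cg2, ce1 + ce2, ?_, ?_, ?_⟩
        · rw [Prod.fst_mul, Units.val_mul, h1, h5, mon_add hy'0]
          ring
        · intro l h0
          by_cases h9 : ce1 l = 0
          · refine h6 l fun h10 => h0 ?_
            rw [Pi.add_apply, h9, h10, add_zero]
          · exact h2 l h9
        · rw [dm_add, h3, h7]
          simp only [Pi.add_apply, add_smul, Finset.sum_add_distrib]
          abel
        · intro x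
          have h9 := h4 x
          have h10 := h8 x
          simp only [Pi.add_apply, add_mul, Finset.sum_add_distrib, Prod.snd_mul, toAdd_mul,
            map_add]
          rw [← h9, ← h10]
          ring
      | inv u _ hu =>
        obtain ⟨a, ha, e1, h1, cg1, ce1, h2, h3, h4⟩ := hu
        refine ⟨a⁻¹, prk_inv ha, -e1, ?_, -cg1, -ce1, ?_, ?_, ?_⟩
        · rw [Prod.fst_inv, Units.val_inv_eq_inv_val, h1, mon_neg, mul_inv]
        · intro l h0
          refine h2 l fun h9 => h0 ?_
          rw [Pi.neg_apply, h9, neg_zero]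
        · rw [dm_neg, h3]
          simp only [Pi.neg_apply, neg_smul, Finset.sum_neg_distrib]
          abel
        · intro x
          have h9 := h4 x
          simp only [Pi.neg_apply, neg_mul, Finset.sum_neg_distrib, Prod.snd_inv, toAdd_inv,
            map_neg]
          rw [← h9]
          ring
    choose a ha cE hcE cg ce hce1 hce2 hce3 using fun j i => hterm j
      (t j i, Multiplicative.ofAdd (δ j i)) ⟨i, hTt2 j i⟩
    -- the degrees
    have hdual : ∀ (x : (j : Fin r) × {i : Fin (q j + 1) // i ≠ 0})
        (x' : (j : Fin r) × {i : Fin (q j + 1) // i ≠ 0}),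
        ∑ s, co (δ x'.1 x'.2 s) * co (b x s) = δδ x x'.1 + if x = x' then 1 else 0 := by
      intro x x'
      have h1 := congrArg co (hb x x')
      rw [map_sum] at h1
      have h2 : co (if x = x' then (1 : ZMod p) else 0) = if x = x' then (1 : κ) else 0 := by
        split_ifs
        · exact map_one _
        · exact map_zero _
      rw [h2] at h1
      rw [← h1]
      change _ = ∑ s, _ + _
      rw [← Finset.sum_add_distrib]
      refine Finset.sum_congr rfl fun s _ => ?_
      rw [map_mul, Pi.sub_apply, map_sub]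
      ring
    have hm : ∀ j, ∃ (m : Fin (q j + 1) → κ) (m0 : κ), (m0 = 0 → ∃ i, m i ≠ 0) ∧
        m0 + ∑ i, m i = 0 ∧ m0 • DD (f j) + ∑ i, m i • (∑ g, cg j i g • Φ0 g +
          ∑ l, ce j i l • DD (f l)) = 0 ∧ (¬ f j ≠ 0 → m0 = 0) := by
      intro j
      by_cases hj : f j = 0
      · obtain ⟨mm, h1, h2, h3⟩ := h.exists_rel (a j) (ha j) (cE j) (by
          rw [← hj, hf j]
          exact Finset.sum_congr rfl fun i _ => (hcE j i).symm)
        refine ⟨mm, 0, fun _ => h3, by rw [zero_add, h1], ?_, fun _ => rfl⟩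
        rw [zero_smul, zero_add, ← h2]
        exact Finset.sum_congr rfl fun i _ => by rw [hce2]
      · obtain ⟨mm, h1, h2, h3⟩ := h.exists_rel (J := Option (Fin (q j + 1)))
          (fun o => o.elim (-1) (a j)) (by
            rintro (_ | i)
            · exact prk_neg prk_one
            · exact ha j i) (fun o => o.elim (ex y' (f j)) (cE j)) (by
            rw [Fintype.sum_option]
            simp only [Option.elim_none, Option.elim_some]
            rw [mon_ex hy' (hyr2 j hj), ← Finset.sum_congr rfl fun i _ => hcE j i]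
            dsimp only
            rw [← hf j]
            ring)
        rw [Fintype.sum_option] at h1 h2
        refine ⟨fun i => mm (some i), mm none, ?_, h1, ?_, fun h0 => absurd hj h0⟩
        · intro h0
          obtain ⟨o, ho⟩ := h3
          rcases o with _ | i
          · exact absurd h0 ho
          · exact ⟨i, ho⟩
        · rw [← h2]
          congr 1
          exact Finset.sum_congr rfl fun i _ => by rw [Option.elim_some, hce2]
    have key := countK Φ0 (fun j => (0 : Fin (q j + 1))) (fun j => f j ≠ 0) (fun j => DD (f j))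
      (fun j i => ∑ g, cg j i g • Φ0 g) ce hce1 BB (fun x j i => ∑ g, cg j i g * BB x g) δδ
      (fun j i => ⟨cg j i, rfl, fun x => rfl⟩)
      (fun x j => by
        rw [hce3 j 0 x]
        change ∑ s, co (δ j 0 s) * co (b x s) = _
        rw [← hdeg j])
      (fun x j i hx => by
        rw [hce3 j i x]
        change ∑ s, co (δ j i s) * co (b x s) = _
        have h1 := hdual x ⟨j, i⟩
        rwa [if_neg hx, add_zero] at h1)
      (fun x => by
        rw [hce3 x.1 x.2 x]
        change ∑ s, co (δ x.1 x.2 s) * co (b x s) = _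
        have h1 := hdual x x
        rwa [if_pos rfl] at h1) hm
    have hGen : Fintype.card Gen = d + ∑ s, Module.finrank F (Submodule.span F (B s)) := by
      rw [Fintype.card_sum, Fintype.card_fin, Fintype.card_sigma]
      simp only [Fintype.card_fin]
    rw [hGen] at key
    have hW0 : W0 ≤ Submodule.span κ (Set.range Φ0 ∪ (fun j => DD (f j)) '' {j | f j ≠ 0}) := by
      intro v hv
      obtain ⟨c, hc⟩ := hwv v hv
      rw [hc]
      exact Submodule.sum_mem _ fun a _ => Submodule.smul_mem _ _
        (Submodule.subset_span (Or.inl ⟨Sum.inl a, rfl⟩))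
    have hsp : Submodule.span κ (Set.range D) ≤
        Submodule.span κ (Set.range Φ0 ∪ (fun j => DD (f j)) '' {j | f j ≠ 0}) := by
      rw [Submodule.span_le]
      rintro _ ⟨j, rfl⟩
      rcases hyZ j with ⟨j', rfl⟩ | hj
      · exact hW0 (Submodule.subset_span ⟨j', rfl⟩)
      · rcases Finset.mem_union.1 hj with h1 | h1
        · obtain ⟨s, -, hs⟩ := Finset.mem_biUnion.1 h1
          obtain ⟨γ, -, hγ⟩ := hδδ0 s _ hs
          rw [dm_ex hy'] at hγ
          have h2 : D j = (D j - ∑ c, γ c • δδ0 s c) + ∑ c, γ c • δδ0 s c := by abel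
          rw [h2]
          exact Submodule.add_mem _ (hW0 hγ) (Submodule.sum_mem _ fun c _ =>
            Submodule.smul_mem _ _ (Submodule.subset_span (Or.inl ⟨Sum.inr ⟨s, c⟩, rfl⟩)))
        · obtain ⟨h2, h3⟩ := Finset.mem_filter.1 h1
          obtain ⟨l', -, hl'⟩ := Finset.mem_image.1 h2
          refine Submodule.subset_span (Or.inr ⟨l', ?_, ?_⟩)
          · change f l' ≠ 0
            rw [hl']
            exact h3
          · change dm D (ex y' (f l')) = D j
            rw [hl', dm_ex hy']
    have hfin : FiniteDimensional κ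
        (Submodule.span κ (Set.range Φ0 ∪ (fun j => DD (f j)) '' {j | f j ≠ 0})) :=
      FiniteDimensional.span_of_finite κ ((Set.finite_range _).union (Set.toFinite _))
    have h1 := Submodule.finrank_mono hsp
    have h2 : Nat.card {j // ¬ f j ≠ 0} = Nat.card {j // f j = 0} :=
      Nat.card_congr (Equiv.subtypeEquivRight fun j => not_not)
    omega

end

end Pool.Agent.T6.H12.X
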