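import Pool.Agent.T6.H12.Diff
import Pool.Agent.T6.H12.X.Good
import Pool.Agent.T6.H12.X.Defs

/-!
# Pull-backs of tame maps
-/

set_option autoImplicit false
set_option linter.unusedSectionVars false

universe u

open Polynomial Pool.Agent.TH214.SD Pool.Agent.W558

namespace Pool.Agent.T6.H12.X

section poly

variable {k : Type u} [Field k] [IsAlgClosed k] [DecidableEq k]

lemma aeval_prod {K : Type u} [Field K] [Algebra k K] (P : k[X]) (A1 : Finset k)
    (hA : ∀ a ∈ P.roots, a ∈ A1) (y : K) :
    aeval y P = algebraMap k K P.leadingCoeff *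
      ∏ a ∈ A1, (y - algebraMap k K a) ^ (P.roots.count a) := by
  classical
  conv_lhs => rw [(IsAlgClosed.splits P).eq_prod_roots]
  rw [map_mul, aeval_C, map_multiset_prod, Multiset.map_map]
  congr 1
  rw [Finset.prod_multiset_map_count, Finset.prod_subset (s₂ := A1)]
  · refine Finset.prod_congr rfl fun a _ => ?_
    rw [Function.comp_apply, map_sub, aeval_X, aeval_C]
  · intro a ha
    exact hA a (Multiset.mem_toFinset.1 ha)
  · intro a _ ha
    rw [Multiset.mem_toFinset] at ha
    rw [Multiset.count_eq_zero_of_notMem ha, pow_zero]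

lemma sum_count (P : k[X]) (A1 : Finset k) (hA : ∀ a ∈ P.roots, a ∈ A1) :
    ∑ a ∈ A1, P.roots.count a = P.natDegree := by
  classical
  rw [Multiset.sum_count_eq_card hA]
  exact (IsAlgClosed.splits P).natDegree_eq_card_roots.symm

lemma log_deriv {κ : Type u} [Field κ] (σ : k →+* κ) (P : k[X]) (A1 : Finset k)
    (hA : ∀ a ∈ P.roots, a ∈ A1) {η : κ} (hη : (P.map σ).eval η ≠ 0) :
    ((derivative P).map σ).eval η / (P.map σ).eval η =
      ∑ a ∈ A1, (P.roots.count a : κ) * (η - σ a)⁻¹ := by
  classical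
  have hs : (P.map σ).Splits := (IsAlgClosed.splits P).map σ
  rw [← derivative_map, hs.eval_derivative_div_eval_of_ne_zero hη,
    (IsAlgClosed.splits P).roots_map σ, Multiset.map_map, Finset.sum_multiset_map_count,
    Finset.sum_subset (s₂ := A1)]
  · refine Finset.sum_congr rfl fun a _ => ?_
    rw [Function.comp_apply, one_div, nsmul_eq_mul]
  · intro a ha
    exact hA a (Multiset.mem_toFinset.1 ha)
  · intro a _ ha
    rw [Multiset.mem_toFinset] at ha
    rw [Multiset.count_eq_zero_of_notMem ha, zero_smul]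

end poly

section place

variable {k K : Type u} [Field k] [Field K] [Algebra k K] {n : ℕ} {Γ κ W : Type u}
    [AddCommGroup Γ] [LinearOrder Γ] [IsOrderedAddMonoid Γ] [Field κ] [AddCommGroup W]
    [Module κ W] {A : Set K} {y : Fin n → K} {l : K → Γ} {z : K → κ} {w : Fin n → Γ}
    {ζ : Fin n → κ} {D : Fin n → W} {σ : k →+* κ}

lemma triv_const (h : IniTop A y l z w ζ D) (h1 : (1 : K) ∈ A) (hσ : Triv A l z σ) {c : k}
    (hc : c ≠ 0) : l (algebraMap k K c) = 0 ∧ z (algebraMap k K c) = σ c := by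
  obtain ⟨h2, h3⟩ := hσ c hc 1 h1
  rw [mul_one] at h2 h3
  rw [h2, h3, h.l_one h1, h.z_one h1, mul_one]
  exact ⟨rfl, rfl⟩

/-- The three kinds of positions of a function of one variable. -/
lemma trichotomy (h : IniTop A y l z w ζ D) (h1 : (1 : K) ∈ A)
    (hAk : ∀ c : k, c ≠ 0 → algebraMap k K c ∈ A) (hσ : Triv A l z σ)
    (hy : Function.Injective y) (x : K) (A1 : Finset k)
    (hyr : ∀ a ∈ A1, x - algebraMap k K a ∈ Set.range y) :
    (∃ a0 ∈ A1, ∀ a ∈ A1, a ≠ a0 → dm D (ex y (x - algebraMap k K a)) = 0) ∨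
    (∃ v : W, ∀ a ∈ A1, dm D (ex y (x - algebraMap k K a)) = v) ∨
    ∃ (η : κ) (τ : W), ∀ a ∈ A1, η ≠ σ a ∧
      (η - σ a) • dm D (ex y (x - algebraMap k K a)) = τ := by
  classical
  let e : k → Fin n → ℤ := fun a => ex y (x - algebraMap k K a)
  have he : ∀ a ∈ A1, mon y (e a) = x - algebraMap k K a := fun a ha => mon_ex hy (hyr a ha)
  have hm1 : algebraMap k K (-1 : k) = -1 := by rw [map_neg, map_one]
  have hn0 : (-1 : k) ≠ 0 := neg_ne_zero.2 one_ne_zero
  have hc1 := triv_const h h1 hσ (one_ne_zero (α := k))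
  have hcm := triv_const h h1 hσ hn0
  rw [map_one, map_one] at hc1
  rw [hm1, map_neg, map_one] at hcm
  have hζ : ∀ a, mon ζ (e a) ≠ 0 := fun a => mon_ne h.ζ0 _
  -- the relation between three terms
  have key : ∀ a ∈ A1, ∀ b ∈ A1, a ≠ b → ∀ μ : Γ, μ ≤ dm w (e a) → μ ≤ dm w (e b) → μ ≤ 0 →
      ((if dm w (e a) = μ then mon ζ (e a) else 0) - (if dm w (e b) = μ then mon ζ (e b) else 0) +
        (if (0 : Γ) = μ then σ (a - b) else 0) = 0) ∧
      ((if dm w (e a) = μ then mon ζ (e a) • dm D (e a) else 0) -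
        (if dm w (e b) = μ then mon ζ (e b) • dm D (e b) else 0) = 0) := by
    intro a ha b hb hab μ hμa hμb hμ0
    have hab' : a - b ≠ 0 := sub_ne_zero.2 hab
    have hcab := triv_const h h1 hσ hab'
    have h2 := h.relJ (J := Option Bool)
      (fun o => o.elim (algebraMap k K (a - b)) fun q => bif q then 1 else -1) (by
        rintro (_ | _ | _)
        · exact hAk _ hab'
        · change (-1 : K) ∈ A
          rw [← hm1]
          exact hAk _ hn0
        · exact h1)
      (fun o => o.elim 0 fun q => bif q then e a else e b) (by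
        rw [Fintype.sum_option, Fintype.sum_bool]
        simp only [Option.elim_none, Option.elim_some, cond_true, cond_false]
        rw [he a ha, he b hb, mon_zero, map_sub]
        ring) μ (by
        rintro (_ | _ | _)
        · change μ ≤ l (algebraMap k K (a - b)) + dm w 0
          rw [hcab.1, dm_zero, add_zero]
          exact hμ0
        · change μ ≤ l (-1) + dm w (e b)
          rw [hcm.1, zero_add]
          exact hμb
        · change μ ≤ l 1 + dm w (e a)
          rw [hc1.1, zero_add]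
          exact hμa)
    rw [Fintype.sum_option, Fintype.sum_option, Fintype.sum_bool, Fintype.sum_bool] at h2
    simp only [Option.elim_none, Option.elim_some, cond_true, cond_false, hcab.1, hcab.2, hcm.1,
      hcm.2, hc1.1, hc1.2, dm_zero, mon_zero, zero_add, add_zero, mul_one, one_mul, smul_zero,
      ite_self, neg_mul, neg_smul] at h2
    obtain ⟨h3, h4⟩ := h2
    constructor
    · refine Eq.trans ?_ h3
      split_ifs <;> ring
    · refine Eq.trans ?_ h4
      split_ifs <;> (try simp only [sub_zero, zero_sub, add_zero, zero_add, neg_zero]) <;>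
        (try abel)
  by_cases hneg : ∃ a ∈ A1, dm w (e a) < 0
  · -- infinity
    right; left
    obtain ⟨a, ha, haw⟩ := hneg
    refine ⟨dm D (e a), fun b hb => ?_⟩
    by_cases hab : b = a
    · rw [hab]
    have heq : dm w (e b) = dm w (e a) := by
      rcases lt_trichotomy (dm w (e b)) (dm w (e a)) with hlt | heq | hlt
      · have h2 := (key a ha b hb (Ne.symm hab) (dm w (e b)) hlt.le le_rfl (hlt.le.trans haw.le)).1
        rw [if_neg hlt.ne', if_pos rfl, if_neg (hlt.trans haw).ne', zero_sub, add_zero,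
          neg_eq_zero] at h2
        exact absurd h2 (hζ b)
      · exact heq
      · have h2 := (key a ha b hb (Ne.symm hab) (dm w (e a)) le_rfl hlt.le haw.le).1
        rw [if_neg hlt.ne', if_pos rfl, if_neg haw.ne', sub_zero, add_zero] at h2
        exact absurd h2 (hζ a)
    obtain ⟨h2, h3⟩ := key a ha b hb (Ne.symm hab) (dm w (e a)) le_rfl heq.ge haw.le
    rw [if_pos rfl, if_pos heq, if_neg haw.ne', add_zero] at h2
    rw [if_pos rfl, if_pos heq, ← sub_eq_zero.1 h2, ← smul_sub] at h3
    exact (sub_eq_zero.1 ((smul_eq_zero.1 h3).resolve_left (hζ a))).symm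
  push Not at hneg
  by_cases hpos : ∃ a ∈ A1, 0 < dm w (e a)
  · -- near a point
    left
    obtain ⟨a0, ha0, haw⟩ := hpos
    refine ⟨a0, ha0, fun a ha hne => ?_⟩
    obtain ⟨h2, h3⟩ := key a0 ha0 a ha (Ne.symm hne) 0 haw.le (hneg a ha) le_rfl
    rw [if_neg haw.ne', if_pos rfl, zero_sub] at h2
    have hwa : dm w (e a) = 0 := by
      by_contra h4
      rw [if_neg h4, neg_zero, zero_add] at h2
      exact sub_ne_zero.2 (Ne.symm hne) ((map_eq_zero σ).1 h2)
    rw [if_neg haw.ne', if_pos hwa, zero_sub, neg_eq_zero] at h3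
    exact (smul_eq_zero.1 h3).resolve_left (hζ a)
  · -- a general point
    push Not at hpos
    have hw0 : ∀ a ∈ A1, dm w (e a) = 0 := fun a ha => le_antisymm (hpos a ha) (hneg a ha)
    right; right
    rcases A1.eq_empty_or_nonempty with hemp | ⟨a0, ha0⟩
    · exact ⟨0, 0, fun a ha => by rw [hemp] at ha; exact absurd ha (Finset.notMem_empty a)⟩
    refine ⟨mon ζ (e a0) + σ a0, mon ζ (e a0) • dm D (e a0), fun a ha => ?_⟩
    have hrel : mon ζ (e a0) + σ a0 - σ a = mon ζ (e a) ∧
        mon ζ (e a0) • dm D (e a0) = mon ζ (e a) • dm D (e a) := by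
      by_cases hab : a0 = a
      · rw [hab, add_sub_cancel_right]
        exact ⟨rfl, rfl⟩
      · obtain ⟨h2, h3⟩ := key a0 ha0 a ha hab 0 (hw0 a0 ha0).ge (hw0 a ha).ge le_rfl
        rw [if_pos (hw0 a0 ha0), if_pos (hw0 a ha), if_pos rfl, map_sub] at h2
        rw [if_pos (hw0 a0 ha0), if_pos (hw0 a ha)] at h3
        refine ⟨?_, sub_eq_zero.1 h3⟩
        rw [← sub_eq_zero, ← h2]
        ring
    constructor
    · intro h4
      rw [h4, sub_self] at hrel
      exact hζ a hrel.1.symm
    · rw [hrel.1, hrel.2]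

end place

section pull

variable {k K : Type u} [Field k] [IsAlgClosed k] [Field K] [Algebra k K] {n : ℕ} {Γ κ W : Type u}
    [AddCommGroup Γ] [LinearOrder Γ] [IsOrderedAddMonoid Γ] [Field κ] [AddCommGroup W]
    [Module κ W] {A : Set K} {y : Fin n → K} {l : K → Γ} {z : K → κ} {w : Fin n → Γ}
    {ζ : Fin n → κ} {D : Fin n → W} {σ : k →+* κ}

lemma not_root_both {P Q : k[X]} (hc : IsCoprime P Q) (c a : k) (h1 : Q.IsRoot a)
    (h2 : (P - C c * Q).IsRoot a) : False := by
  obtain ⟨u, v, huv⟩ := hc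
  have h3 : P.eval a = 0 := by
    have h4 : (P - C c * Q).eval a = 0 := h2
    rw [eval_sub, eval_mul, eval_C, show Q.eval a = 0 from h1, mul_zero, sub_zero] at h4
    exact h4
  have h5 := congrArg (eval a) huv
  rw [eval_add, eval_mul, eval_mul, h3, show Q.eval a = 0 from h1, mul_zero, mul_zero, add_zero,
    eval_one] at h5
  exact zero_ne_one h5

lemma natDegree_fib {P Q : k[X]} (h : Q.natDegree < P.natDegree) (c : k) :
    (P - C c * Q).natDegree = P.natDegree := by
  refine natDegree_sub_eq_left_of_natDegree_lt ?_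
  exact lt_of_le_of_lt (natDegree_C_mul_le c Q) h

/-- The derivatives of the functions `x - a`. -/
theorem pull_aux (h : IniTop A y l z w ζ D) (h1 : (1 : K) ∈ A)
    (hAm : ∀ a ∈ A, ∀ b ∈ A, a * b ∈ A) (hAk : ∀ c : k, c ≠ 0 → algebraMap k K c ∈ A)
    (hσ : Triv A l z σ) (hy : Function.Injective y) (hy0 : ∀ j, y j ≠ 0) (p : ℕ) [Fact p.Prime]
    [CharP K p] (x : K) {P Q : k[X]} {B : Set k} (hP : IsTameMap p P Q B) (B1 : Finset k)
    (hB1 : ∀ c ∈ B1, c ∈ B) (hB1n : B1.Nonempty)
    (hcrit : ∀ a, (derivative P * Q - P * derivative Q).IsRoot a →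
      Q.IsRoot a ∨ ∃ c ∈ B1, (P - C c * Q).IsRoot a) (A1 : Finset k)
    (hA1 : ∀ a, a ∈ A1 ↔ Q.IsRoot a ∨ ∃ c ∈ B1, (P - C c * Q).IsRoot a)
    (hyr : ∀ a ∈ A1, x - algebraMap k K a ∈ Set.range y) (f : K)
    (hf : aeval x P = f * aeval x Q) (W0 : Submodule κ W)
    (hfB : ∀ c ∈ B1, ∃ a ∈ A, ∃ e : Fin n → ℤ, f - algebraMap k K c = a * mon y e ∧
      dm D e ∈ W0) :
    ∀ a ∈ A1, dm D (ex y (x - algebraMap k K a)) ∈ W0 := by
  classical
  let e : k → Fin n → ℤ := fun a => ex y (x - algebraMap k K a)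
  have he : ∀ a ∈ A1, mon y (e a) = x - algebraMap k K a := fun a ha => mon_ex hy (hyr a ha)
  have hp : p.Prime := Fact.out
  have hP0 : P ≠ 0 := by
    rintro rfl
    have := hP.degree.1
    rw [natDegree_zero] at this
    exact absurd this (Nat.not_lt_zero _)
  have hQ0 : Q ≠ 0 := by
    rintro rfl
    obtain ⟨u, v, huv⟩ := hP.coprime
    rw [mul_zero, add_zero] at huv
    have h2 : IsUnit P := IsUnit.of_mul_eq_one u (by rw [mul_comm]; exact huv)
    have h3 := natDegree_eq_zero_of_isUnit h2
    have := hP.degree.1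
    rw [h3] at this
    exact absurd this (Nat.not_lt_zero _)
  have hR0 : ∀ c : k, P - C c * Q ≠ 0 := by
    intro c h0
    have h2 := natDegree_fib hP.degree.1 c
    rw [h0, natDegree_zero] at h2
    have := hP.degree.1
    rw [← h2] at this
    exact absurd this (Nat.not_lt_zero _)
  have hQr : ∀ a ∈ Q.roots, a ∈ A1 := fun a ha => (hA1 a).2 (Or.inl ((mem_roots hQ0).1 ha))
  have hRr : ∀ c ∈ B1, ∀ a ∈ (P - C c * Q).roots, a ∈ A1 := fun c hc a ha =>
    (hA1 a).2 (Or.inr ⟨c, hc, (mem_roots (hR0 c)).1 ha⟩)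
  have hpκ : (p : κ) = 0 := h.char h1 p
  have hcκ : CharP κ p := (CharP.charP_iff_prime_eq_zero hp).2 hpκ
  have hneg : ∀ a ∈ A, -a ∈ A := by
    intro a ha
    have h2 := hAm _ (hAk (-1) (neg_ne_zero.2 one_ne_zero)) _ ha
    rwa [map_neg, map_one, neg_one_mul] at h2
  -- monomials of products
  have hmon : ∀ m : k → ℕ, mon y (∑ a ∈ A1, m a • e a) =
      ∏ a ∈ A1, (x - algebraMap k K a) ^ m a := by
    intro m
    have h2 : ∀ s : Finset k, s ⊆ A1 → mon y (∑ a ∈ s, m a • e a) =
        ∏ a ∈ s, (x - algebraMap k K a) ^ m a := by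
      intro s
      induction s using Finset.induction_on with
      | empty => intro _; rw [Finset.sum_empty, Finset.prod_empty, mon_zero]
      | insert a s ha ih =>
        intro hs
        rw [Finset.sum_insert ha, Finset.prod_insert ha, mon_add hy0, mon_nsmul hy0,
          ih ((Finset.subset_insert a s).trans hs), he a (hs (Finset.mem_insert_self a s))]
    exact h2 A1 subset_rfl
  have hdm : ∀ m : k → ℕ, dm D (∑ a ∈ A1, m a • e a) = ∑ a ∈ A1, (m a : κ) • dm D (e a) := by
    intro m
    have h2 : ∀ s : Finset k, dm D (∑ a ∈ s, m a • e a) = ∑ a ∈ s, (m a : κ) • dm D (e a) := by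
      intro s
      induction s using Finset.induction_on with
      | empty => rw [Finset.sum_empty, Finset.sum_empty, dm_zero]
      | insert a s ha ih =>
        rw [Finset.sum_insert ha, Finset.sum_insert ha, dm_add, dm_nsmul (κ := κ), ih]
    exact h2 A1
  -- the relations
  have hrel : ∀ c ∈ B1, ∑ a ∈ A1, (((P - C c * Q).roots.count a : κ) - (Q.roots.count a : κ)) •
      dm D (e a) ∈ W0 := by
    intro c hc
    obtain ⟨ac, hac, ec, h2, h3⟩ := hfB c hc
    have h4 : aeval x (P - C c * Q) = (f - algebraMap k K c) * aeval x Q := by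
      rw [map_sub, map_mul, aeval_C, hf]
      ring
    rw [aeval_prod _ A1 (hRr c hc) x, aeval_prod _ A1 hQr x, h2, ← hmon, ← hmon] at h4
    have hlc : algebraMap k K (P - C c * Q).leadingCoeff ∈ A :=
      hAk _ (leadingCoeff_ne_zero.2 (hR0 c))
    have hlq : algebraMap k K Q.leadingCoeff ∈ A := hAk _ (leadingCoeff_ne_zero.2 hQ0)
    have h5 := h.rel_two hneg hlc (hAm _ hac _ hlq)
      (e := ∑ a ∈ A1, (P - C c * Q).roots.count a • e a)
      (e' := ec + ∑ a ∈ A1, Q.roots.count a • e a) (by
        rw [h4, mon_add hy0]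
        ring)
    rw [dm_add, hdm, hdm] at h5
    have h6 : ∑ a ∈ A1, (((P - C c * Q).roots.count a : κ) - (Q.roots.count a : κ)) •
        dm D (e a) = dm D ec := by
      simp_rw [sub_smul]
      rw [Finset.sum_sub_distrib, h5, add_sub_cancel_right]
    rw [h6]
    exact h3
  rcases trichotomy h h1 hAk hσ hy x A1 hyr with ⟨a0, ha0, h2⟩ | ⟨v, h2⟩ | ⟨η, τ, h2⟩
  · -- near a point
    have h3 : ∀ c ∈ B1, (((P - C c * Q).roots.count a0 : κ) - (Q.roots.count a0 : κ)) •
        dm D (e a0) ∈ W0 := by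
      intro c hc
      have h4 := hrel c hc
      rw [Finset.sum_eq_single a0] at h4
      · exact h4
      · intro a ha hne
        rw [show dm D (e a) = 0 from h2 a ha hne, smul_zero]
      · intro h5; exact absurd ha0 h5
    have h4 : dm D (e a0) ∈ W0 := by
      rcases (hA1 a0).1 ha0 with hq | ⟨c, hc, hr⟩
      · obtain ⟨c, hc⟩ := hB1n
        have h5 := h3 c hc
        have h6 : (P - C c * Q).roots.count a0 = 0 := by
          rw [Multiset.count_eq_zero]
          intro h7
          exact not_root_both hP.coprime c a0 hq ((mem_roots (hR0 c)).1 h7)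
        rw [h6, Nat.cast_zero, zero_sub, neg_smul] at h5
        have h7 : (Q.roots.count a0 : κ) ≠ 0 := by
          rw [Ne, CharP.cast_eq_zero_iff κ p, count_roots]
          exact hP.poles a0 hq
        exact (Submodule.smul_mem_iff _ h7).1 (by
          have := Submodule.neg_mem _ h5
          rwa [neg_neg] at this)
      · have h5 := h3 c hc
        have h6 : Q.roots.count a0 = 0 := by
          rw [Multiset.count_eq_zero]
          intro h7
          exact not_root_both hP.coprime c a0 ((mem_roots hQ0).1 h7) hr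
        rw [h6, Nat.cast_zero, sub_zero] at h5
        have h7 : ((P - C c * Q).roots.count a0 : κ) ≠ 0 := by
          rw [Ne, CharP.cast_eq_zero_iff κ p, count_roots]
          exact hP.fibres c (hB1 c hc) a0 hr
        exact (Submodule.smul_mem_iff _ h7).1 h5
    intro a ha
    by_cases hne : a = a0
    · rw [hne]
      exact h4
    · rw [h2 a ha hne]
      exact zero_mem _
  · -- infinity
    obtain ⟨c, hc⟩ := hB1n
    have h3 := hrel c hc
    have h4 : ∑ a ∈ A1, (((P - C c * Q).roots.count a : κ) - (Q.roots.count a : κ)) •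
        dm D (e a) = (((P.natDegree - Q.natDegree : ℕ) : κ)) • v := by
      have h5 : ∀ a ∈ A1, (((P - C c * Q).roots.count a : κ) - (Q.roots.count a : κ)) •
          dm D (e a) = (((P - C c * Q).roots.count a : κ) - (Q.roots.count a : κ)) • v :=
        fun a ha => by rw [show dm D (e a) = v from h2 a ha]
      rw [Finset.sum_congr rfl h5, ← Finset.sum_smul, Finset.sum_sub_distrib, ← Nat.cast_sum,
        ← Nat.cast_sum, sum_count _ A1 (hRr c hc), sum_count _ A1 hQr,
        natDegree_fib hP.degree.1 c, Nat.cast_sub hP.degree.1.le]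
    rw [h4] at h3
    have h5 : ((P.natDegree - Q.natDegree : ℕ) : κ) ≠ 0 := by
      rw [Ne, CharP.cast_eq_zero_iff κ p]
      exact hP.degree.2
    intro a ha
    rw [h2 a ha]
    exact (Submodule.smul_mem_iff _ h5).1 h3
  · -- a general point
    obtain ⟨c, hc⟩ := hB1n
    have h3 := hrel c hc
    have hη : ∀ a ∈ A1, η - σ a ≠ 0 := fun a ha => sub_ne_zero.2 (h2 a ha).1
    have hev : ∀ (R : k[X]), R ≠ 0 → (∀ a ∈ R.roots, a ∈ A1) → (R.map σ).eval η ≠ 0 := by
      intro R hR hRA h4
      have h5 : η ∈ (R.map σ).roots := (mem_roots ((Polynomial.map_ne_zero_iff σ.injective).2 hR)).2 h4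
      rw [(IsAlgClosed.splits R).roots_map σ] at h5
      obtain ⟨a, ha, hae⟩ := Multiset.mem_map.1 h5
      exact (h2 a (hRA a ha)).1 hae.symm
    have hD0 : derivative P * Q - P * derivative Q ≠ 0 := by
      intro h0
      obtain ⟨a, ha⟩ := Infinite.exists_notMem_finset A1
      refine ha ((hA1 a).2 (hcrit a ?_))
      rw [h0]
      exact eval_zero
    have h4 := hev _ hD0 (fun a ha => (hA1 a).2 (hcrit a ((mem_roots hD0).1 ha)))
    have h5 := hev _ (hR0 c) (hRr c hc)
    have h6 := hev _ hQ0 hQr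
    have h7 : ∑ a ∈ A1, (((P - C c * Q).roots.count a : κ) - (Q.roots.count a : κ)) •
        dm D (e a) = (((derivative P * Q - P * derivative Q).map σ).eval η /
          (((P - C c * Q).map σ).eval η * (Q.map σ).eval η)) • τ := by
      have h8 : ∀ a ∈ A1, (((P - C c * Q).roots.count a : κ) - (Q.roots.count a : κ)) •
          dm D (e a) = ((((P - C c * Q).roots.count a : κ) * (η - σ a)⁻¹) -
            ((Q.roots.count a : κ) * (η - σ a)⁻¹)) • τ := by
        intro a ha
        have h9 : dm D (e a) = (η - σ a)⁻¹ • τ := by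
          rw [← (h2 a ha).2, inv_smul_smul₀ (hη a ha)]
        rw [h9, smul_smul]
        congr 1
        ring
      rw [Finset.sum_congr rfl h8, ← Finset.sum_smul, Finset.sum_sub_distrib,
        ← log_deriv σ _ A1 (hRr c hc) h5, ← log_deriv σ _ A1 hQr h6, div_sub_div _ _ h5 h6]
      congr 2
      simp only [derivative_sub, derivative_mul, derivative_C, zero_mul, zero_add,
        Polynomial.map_sub, Polynomial.map_mul, map_C, eval_sub, eval_mul, eval_C]
      ring
    rw [h7] at h3
    have h8 : τ ∈ W0 := (Submodule.smul_mem_iff _ (div_ne_zero h4 (mul_ne_zero h5 h6))).1 h3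
    intro a ha
    have h9 : dm D (ex y (x - algebraMap k K a)) = (η - σ a)⁻¹ • τ := by
      rw [← (h2 a ha).2, inv_smul_smul₀ (hη a ha)]
    rw [h9]
    exact Submodule.smul_mem _ _ h8

end pull

end Pool.Agent.T6.H12.X
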